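import Mathlib
import Pool.Agent.W301.SS.Avg
import Pool.Agent.H373R2.T7.BilE

/-! Primes in short intervals to the right of the translates of a family of small additive energy:
the bilinear estimate. -/

set_option autoImplicit false

namespace Pool.Agent.X25.TE
open Finset
open Pool.Agent.H807R2.Dav
open Pool.Agent.W301.SS
open Pool.Agent.H373R2.T7 (energy moment_energy)

/-- the sum of `log p` over the primes in the intervals of length `H` to the right of `s m + b` -/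
noncomputable def TS (s : ℕ → ℕ) (x : ℕ) (B : Finset ℕ) (H : ℕ) : ℝ :=
  ∑ m ∈ Icc 1 x, ∑ b ∈ B, ∑ h ∈ Ioc 0 H, om (s m + b + h)

/-- the exponential sum of the family -/
noncomputable def FS (s : ℕ → ℕ) (x : ℕ) (α : ℝ) : ℂ := ∑ m ∈ Icc 1 x, ee ((s m : ℝ) * α)

lemma TS_fourier {N M : ℕ} (hNM : N < M) (s : ℕ → ℕ) (x : ℕ) (B : Finset ℕ) (H : ℕ)
    (hN : ∀ m ∈ Icc 1 x, ∀ b ∈ B, s m + b + H ≤ N) :
    (M : ℂ) * ((TS s x B H : ℝ) : ℂ) = ∑ r ∈ range M, SP N (-((r : ℝ) / M)) *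
      (FS s x ((r : ℝ) / M) * FA B ((r : ℝ) / M) * FK H ((r : ℝ) / M)) := by
  have e1 : ∀ r ∈ range M, SP N (-((r : ℝ) / M)) *
      (FS s x ((r : ℝ) / M) * FA B ((r : ℝ) / M) * FK H ((r : ℝ) / M)) =
      ∑ m ∈ Icc 1 x, ∑ b ∈ B, ∑ h ∈ Ioc 0 H, SP N (-((r : ℝ) / M)) *
        ee (((s m + b + h : ℕ) : ℝ) * ((r : ℝ) / M)) := by
    intro r _
    unfold FS FA FK
    rw [sum_mul_sum, sum_mul, mul_sum]
    apply sum_congr rfl
    intro a _
    rw [sum_mul, mul_sum]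
    apply sum_congr rfl
    intro b _
    rw [mul_sum, mul_sum]
    apply sum_congr rfl
    intro h _
    rw [← ee_add, ← ee_add]
    congr 2
    push_cast; ring
  rw [sum_congr rfl e1, sum_comm]
  unfold TS
  push_cast
  rw [mul_sum]
  apply sum_congr rfl
  intro a ha
  conv_rhs => rw [sum_comm]
  rw [mul_sum]
  apply sum_congr rfl
  intro b hb
  conv_rhs => rw [sum_comm]
  rw [mul_sum]
  apply sum_congr rfl
  intro h hh
  rw [mem_Ioc] at hh
  have := hN a ha b hb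
  have h2 := inversion hNM (s a + b + h) (by omega) (by omega)
  rw [← h2]
  apply sum_congr rfl
  intro r _
  push_cast
  rfl

/-- Parseval's identity for the exponential sum over primes -/
lemma parsevalSP {N M : ℕ} (hNM : N < M) :
    ∑ r ∈ range M, ‖SP N (-((r : ℝ) / M))‖ ^ 2 = M * ∑ n ∈ Icc 1 N, om n ^ 2 := by
  have hM : 1 ≤ M := by omega
  have key : ((∑ r ∈ range M, ‖SP N (-((r : ℝ) / M))‖ ^ 2 : ℝ) : ℂ) =
      ((M * ∑ n ∈ Icc 1 N, om n ^ 2 : ℝ) : ℂ) := by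
    push_cast
    have e1 : ∀ r ∈ range M, ((‖SP N (-((r : ℝ) / M))‖ : ℂ)) ^ 2 =
        ∑ a ∈ Icc 1 N, ∑ b ∈ Icc 1 N, ((om a : ℝ) : ℂ) * ((om b : ℝ) : ℂ) *
          ee (((b : ℤ) - (a : ℤ) : ℤ) * ((r : ℝ) / M)) := by
      intro r _
      rw [← Complex.mul_conj']
      unfold SP
      rw [map_sum, sum_mul_sum]
      apply sum_congr rfl
      intro a _
      apply sum_congr rfl
      intro b _
      rw [map_mul, star_ee, Complex.conj_ofReal]
      have : ee ((a : ℝ) * -((r : ℝ) / M)) * ee (-((b : ℝ) * -((r : ℝ) / M))) =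
          ee (((b : ℤ) - (a : ℤ) : ℤ) * ((r : ℝ) / M)) := by
        rw [← ee_add]
        congr 1
        push_cast; ring
      rw [← this]
      ring
    rw [sum_congr rfl e1, sum_comm, mul_sum]
    apply sum_congr rfl
    intro a ha
    rw [sum_comm, sum_eq_single a]
    · rw [← mul_sum, orth hM]
      simp
      ring
    · intro b hb hba
      rw [← mul_sum, orth hM, if_neg, mul_zero]
      intro h
      rw [mem_Icc] at ha hb
      have h3 := Int.eq_zero_of_abs_lt_dvd h (by rw [abs_lt]; constructor <;> omega)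
      apply hba; omega
    · intro h; exact absurd ha h
  exact_mod_cast key

/-- the power mean inequality with weights -/
lemma wpow (s : Finset ℕ) (w z : ℕ → ℝ) (hw : ∀ i ∈ s, 0 ≤ w i) (hz : ∀ i ∈ s, 0 ≤ z i) (p : ℕ)
    (hp : 1 ≤ p) : (∑ i ∈ s, w i * z i) ^ p ≤ (∑ i ∈ s, w i) ^ (p - 1) * ∑ i ∈ s, w i * z i ^ p := by
  have hW : 0 ≤ ∑ i ∈ s, w i := sum_nonneg hw
  rcases hW.eq_or_lt with h0 | h0
  · have h1 : ∀ i ∈ s, w i = 0 := (sum_eq_zero_iff_of_nonneg hw).1 h0.symm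
    have h2 : ∑ i ∈ s, w i * z i = 0 := sum_eq_zero fun i hi => by rw [h1 i hi, zero_mul]
    rw [h2, zero_pow (by omega)]
    apply mul_nonneg (by positivity)
    exact sum_nonneg fun i hi => mul_nonneg (hw i hi) (pow_nonneg (hz i hi) _)
  · set W := ∑ i ∈ s, w i with hWd
    have h1 := Real.pow_arith_mean_le_arith_mean_pow s (fun i => w i / W) z
      (fun i hi => div_nonneg (hw i hi) h0.le) (by rw [← sum_div]; exact div_self h0.ne') hz p
    have e1 : ∑ i ∈ s, w i / W * z i = (∑ i ∈ s, w i * z i) / W := by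
      rw [sum_div]; exact sum_congr rfl fun i _ => by ring
    have e2 : ∑ i ∈ s, w i / W * z i ^ p = (∑ i ∈ s, w i * z i ^ p) / W := by
      rw [sum_div]; exact sum_congr rfl fun i _ => by ring
    rw [e1, e2, div_pow, div_le_div_iff₀ (by positivity) h0] at h1
    have e3 : W ^ p = W ^ (p - 1) * W := by rw [← pow_succ]; congr 1; omega
    rw [e3] at h1
    have h2 : (∑ i ∈ s, w i * z i) ^ p * W ≤ (W ^ (p - 1) * ∑ i ∈ s, w i * z i ^ p) * W := by
      linarith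
    exact le_of_mul_le_mul_right h2 h0

/-- Hölder's inequality in the form used -/
lemma holder3 (s : Finset ℕ) (a b g : ℕ → ℝ) (ha : ∀ i ∈ s, 0 ≤ a i)
    (W : ℝ) (hg : ∀ i ∈ s, 0 ≤ g i) (hgW : ∀ i ∈ s, g i ≤ W) (p : ℕ) (hp : 1 ≤ p) :
    (∑ i ∈ s, a i * b i * g i) ^ (2 * p) ≤ (∑ i ∈ s, b i ^ 2) ^ p *
      ((∑ i ∈ s, g i ^ 2) ^ (p - 1) * (W ^ 2 * ∑ i ∈ s, a i ^ (2 * p))) := by
  have h1 : (∑ i ∈ s, a i * b i * g i) ^ 2 ≤ (∑ i ∈ s, b i ^ 2) * ∑ i ∈ s, g i ^ 2 * a i ^ 2 := by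
    have := sum_mul_sq_le_sq_mul_sq s b (fun i => g i * a i)
    have e1 : ∑ i ∈ s, b i * (g i * a i) = ∑ i ∈ s, a i * b i * g i :=
      sum_congr rfl fun i _ => by ring
    have e2 : ∑ i ∈ s, (g i * a i) ^ 2 = ∑ i ∈ s, g i ^ 2 * a i ^ 2 :=
      sum_congr rfl fun i _ => by ring
    rw [e1, e2] at this
    exact this
  have h2 := wpow s (fun i => g i ^ 2) (fun i => a i ^ 2) (fun i _ => sq_nonneg _)
    (fun i _ => sq_nonneg _) p hp
  have h3 : ∑ i ∈ s, g i ^ 2 * (a i ^ 2) ^ p ≤ W ^ 2 * ∑ i ∈ s, a i ^ (2 * p) := by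
    rw [mul_sum]
    apply sum_le_sum
    intro i hi
    rw [← pow_mul]
    apply mul_le_mul_of_nonneg_right _ (pow_nonneg (ha i hi) _)
    exact pow_le_pow_left₀ (hg i hi) (hgW i hi) 2
  have hG : 0 ≤ (∑ i ∈ s, g i ^ 2) ^ (p - 1) := by positivity
  calc (∑ i ∈ s, a i * b i * g i) ^ (2 * p) = ((∑ i ∈ s, a i * b i * g i) ^ 2) ^ p := by
        rw [← pow_mul]
    _ ≤ ((∑ i ∈ s, b i ^ 2) * ∑ i ∈ s, g i ^ 2 * a i ^ 2) ^ p :=
        pow_le_pow_left₀ (sq_nonneg _) h1 p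
    _ = (∑ i ∈ s, b i ^ 2) ^ p * (∑ i ∈ s, g i ^ 2 * a i ^ 2) ^ p := mul_pow _ _ _
    _ ≤ (∑ i ∈ s, b i ^ 2) ^ p * ((∑ i ∈ s, g i ^ 2) ^ (p - 1) * ∑ i ∈ s, g i ^ 2 * (a i ^ 2) ^ p) := by
        apply mul_le_mul_of_nonneg_left h2 (by positivity)
    _ ≤ _ := by
        apply mul_le_mul_of_nonneg_left _ (by positivity)
        exact mul_le_mul_of_nonneg_left h3 hG

lemma FK_le (H : ℕ) (x : ℝ) : ‖FK H x / H‖ ≤ 1 := by
  rcases Nat.eq_zero_or_pos H with h | h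
  · subst h; simp
  · have hH0 : (0 : ℝ) < H := by exact_mod_cast h
    rw [norm_div, Complex.norm_natCast, div_le_one hH0]
    unfold FK
    refine (norm_sum_le _ _).trans ?_
    simp only [norm_ee]
    rw [sum_const, Nat.card_Ioc, nsmul_eq_mul, mul_one, Nat.sub_zero]

/-- the bound for one point, all residues -/
lemma all_points {C : ℝ} (hC : VC C) {N M : ℕ} (hN : 1 ≤ N) (hM : 1 ≤ M)
    (H H1 : ℕ) (hH : 1 ≤ H) (hHH : H ≤ H1) (Q : ℝ) (hQ : 0 < Q) (r : ℕ) (hr : r < M) :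
    ‖SP N (-((r : ℝ) / M))‖ * ‖FK H ((r : ℝ) / M) / H - FK H1 ((r : ℝ) / M) / H1‖ ≤
      (6 * C + 26) * ERR N H H1 Q := by
  have hlogN : 0 ≤ Real.log N := Real.log_nonneg (by exact_mod_cast hN)
  have hE : 0 ≤ ERR N H H1 Q := by unfold ERR; positivity
  have hE2 : 0 ≤ (6 * C + 26) * ERR N H H1 Q := by have := hC.1; positivity
  have hM0 : (M : ℝ) ≠ 0 := by positivity
  rcases Nat.eq_zero_or_pos r with h0 | h0
  · subst h0
    have hH0 : (H : ℂ) ≠ 0 := by
      have : 0 < H := hH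
      exact_mod_cast this.ne'
    have hH10 : (H1 : ℂ) ≠ 0 := by
      have : 0 < H1 := by omega
      exact_mod_cast this.ne'
    have : FK H (((0 : ℕ) : ℝ) / M) / H - FK H1 (((0 : ℕ) : ℝ) / M) / H1 = 0 := by
      unfold FK
      simp [ee_zero, hH0, hH10]
    rw [this, norm_zero, mul_zero]
    exact hE2
  · rcases le_or_gt (2 * r) M with h | h
    · exact one_point hC hN h0 h H H1 hH hHH Q hQ _ (Or.inl rfl)
    · have hm1 : 1 ≤ M - r := by omega
      have hm2 : 2 * (M - r) ≤ M := by omega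
      have key := one_point hC hN hm1 hm2 H H1 hH hHH Q hQ _ (Or.inr rfl)
      have e0 : -(((M - r : ℕ) : ℝ) / M) = (((r : ℝ) - M) / M) := by
        rw [Nat.cast_sub (by omega)]; ring
      rw [e0] at key
      have e1 : ∀ K : ℕ, FK K (((r : ℝ) - M) / M) = FK K ((r : ℝ) / M) := by
        intro K
        unfold FK
        apply sum_congr rfl
        intro i _
        have := ee_red (M := M) hM r (i : ℤ)
        push_cast at this ⊢
        exact this
      have e2 : SP N (-(((r : ℝ) - M) / M)) = SP N (-((r : ℝ) / M)) := by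
        unfold SP
        apply sum_congr rfl
        intro i _
        have := ee_red (M := M) hM r (-(i : ℤ))
        push_cast at this ⊢
        rw [mul_neg, mul_neg, ← neg_mul, ← neg_mul, this]
      rw [e1, e1, e2] at key
      exact key

lemma TS_diff {N M p R : ℕ} (hp : 1 ≤ p) (hNM : N < M) (s : ℕ → ℕ) (x : ℕ) (B : Finset ℕ)
    (hsR : ∀ m ∈ Icc 1 x, s m ≤ R) (hMR : 2 * p * R < M) (hBM : ∀ b ∈ B, b < M)
    (H H1 : ℕ) (hH : H ≤ H1) (hN : ∀ m ∈ Icc 1 x, ∀ b ∈ B, s m + b + H1 ≤ N) (W : ℝ)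
    (hr : ∀ r ∈ range M, ‖SP N (-((r : ℝ) / M))‖ *
      ‖FK H ((r : ℝ) / M) / H - FK H1 ((r : ℝ) / M) / H1‖ ≤ W) :
    ((M : ℝ) * |TS s x B H / H - TS s x B H1 / H1|) ^ (2 * p) ≤ ((M : ℝ) * B.card) ^ p *
      ((4 * ((M : ℝ) * ∑ n ∈ Icc 1 N, om n ^ 2)) ^ (p - 1) *
        (W ^ 2 * ((M : ℝ) * energy p x (fun m => (s m : ℤ))))) := by
  have hM : 1 ≤ M := by omega
  have hM0 : (0 : ℝ) < M := by exact_mod_cast hM
  have h1 := TS_fourier hNM s x B H (fun a ha b hb => by have := hN a ha b hb; omega)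
  have h2 := TS_fourier hNM s x B H1 hN
  have h3 : (M : ℂ) * (((TS s x B H / H - TS s x B H1 / H1 : ℝ)) : ℂ) =
      ∑ r ∈ range M, SP N (-((r : ℝ) / M)) * (FS s x ((r : ℝ) / M) * FA B ((r : ℝ) / M) *
        (FK H ((r : ℝ) / M) / H - FK H1 ((r : ℝ) / M) / H1)) := by
    push_cast
    rw [mul_sub, ← mul_div_assoc, ← mul_div_assoc, h1, h2, sum_div, sum_div, ← sum_sub_distrib]
    apply sum_congr rfl
    intro r _
    ring
  set a : ℕ → ℝ := fun r => ‖FS s x ((r : ℝ) / M)‖ with ha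
  set b : ℕ → ℝ := fun r => ‖FA B ((r : ℝ) / M)‖ with hb
  set g : ℕ → ℝ := fun r => ‖SP N (-((r : ℝ) / M))‖ *
      ‖FK H ((r : ℝ) / M) / H - FK H1 ((r : ℝ) / M) / H1‖ with hg
  have h4 : (M : ℝ) * |TS s x B H / H - TS s x B H1 / H1| ≤ ∑ r ∈ range M, a r * b r * g r := by
    have h5 : (M : ℝ) * |TS s x B H / H - TS s x B H1 / H1| =
        ‖(M : ℂ) * (((TS s x B H / H - TS s x B H1 / H1 : ℝ)) : ℂ)‖ := by
      rw [norm_mul, Complex.norm_natCast, Complex.norm_real, Real.norm_eq_abs]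
    rw [h5, h3]
    refine (norm_sum_le _ _).trans (sum_le_sum fun r _ => ?_)
    rw [norm_mul, norm_mul, norm_mul]
    refine le_of_eq ?_
    simp only [ha, hb, hg]
    ring
  have hhol := holder3 (range M) a b g (fun i _ => norm_nonneg _) W
    (fun i _ => mul_nonneg (norm_nonneg _) (norm_nonneg _)) hr p hp
  have hb2 : ∑ r ∈ range M, b r ^ 2 = M * B.card := parseval hM B hBM
  have hg2 : ∑ r ∈ range M, g r ^ 2 ≤ 4 * ((M : ℝ) * ∑ n ∈ Icc 1 N, om n ^ 2) := by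
    rw [← parsevalSP hNM, mul_sum]
    apply sum_le_sum
    intro r _
    simp only [hg]
    rw [mul_pow, mul_comm (4 : ℝ)]
    apply mul_le_mul_of_nonneg_left _ (sq_nonneg _)
    have : ‖FK H ((r : ℝ) / M) / H - FK H1 ((r : ℝ) / M) / H1‖ ≤ 2 := by
      refine (norm_sub_le _ _).trans ?_
      have := FK_le H ((r : ℝ) / M)
      have := FK_le H1 ((r : ℝ) / M)
      linarith
    calc _ ≤ (2 : ℝ) ^ 2 := pow_le_pow_left₀ (norm_nonneg _) this 2
      _ = 4 := by norm_num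
  have ha2 : ∑ r ∈ range M, a r ^ (2 * p) = M * energy p x (fun m => (s m : ℤ)) := by
    have := moment_energy p x (fun m => (s m : ℤ)) M R hM (fun m hm => by
      rw [Nat.abs_cast]; exact_mod_cast hsR m hm) hMR
    rw [← this]
    apply sum_congr rfl
    intro r _
    simp only [ha, FS]
    congr 2
    apply sum_congr rfl
    intro m _
    congr 1
    push_cast
    ring
  rw [hb2, ha2] at hhol
  calc ((M : ℝ) * |TS s x B H / H - TS s x B H1 / H1|) ^ (2 * p) ≤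
        (∑ r ∈ range M, a r * b r * g r) ^ (2 * p) := pow_le_pow_left₀ (by positivity) h4 _
    _ ≤ _ := hhol
    _ ≤ _ := by
        apply mul_le_mul_of_nonneg_left _ (by positivity)
        apply mul_le_mul_of_nonneg_right _ (by positivity)
        exact pow_le_pow_left₀ (sum_nonneg fun _ _ => sq_nonneg _) hg2 _

end Pool.Agent.X25.TE
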