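import Mathlib
import Pool.Agent.X25.TE.Core

/-! Sums over the pairs of a member of the family and a shift, weights `log p`. -/

set_option autoImplicit false

namespace Pool.Agent.X25.TE
open Finset Filter
open Pool.Agent.H807R2.Dav
open Pool.Agent.W301.SS
open Pool.Agent.H373R2.T7 (energy moment_energy)

/-- the error term of the bilinear estimate is small -/
lemma err_ev (C0 : ℝ) (hC0 : 0 < C0) (D : ℕ) : ∀ᶠ N : ℕ in atTop, ∀ y H1 : ℕ,
    Real.log N ^ (2 * D + 18) ≤ y → (H1 : ℝ) ≤ N / Real.log N ^ (3 * D + 19) →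
    C0 * ERR (4 * N) y H1 (N / Real.log N ^ (2 * D + 18)) ≤ N / Real.log N ^ D := by
  filter_upwards [ev_L (1284 * C0 + 16), ev_log (D + 8) 2 (1 / 5) (by norm_num),
    eventually_ge_atTop 16] with N h1 h3 hN16 y H1 hy hH1
  have hNr : (16 : ℝ) ≤ N := by exact_mod_cast hN16
  have hN0 : (0 : ℝ) < N := by linarith
  set ℓ := Real.log N with hℓ
  have hℓ16 : 16 ≤ ℓ := by have : 0 < 1284 * C0 := by positivity
                           linarith
  have hℓ0 : 0 < ℓ := by linarith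
  have hℓ1 : 1 ≤ ℓ := by linarith
  have hL : 1 + Real.log ((4 * N : ℕ) : ℝ) ≤ 2 * ℓ := by
    push_cast
    rw [Real.log_mul (by norm_num) (by linarith)]
    have := log4
    linarith
  have hL0 : 0 ≤ 1 + Real.log ((4 * N : ℕ) : ℝ) := by
    have : 0 ≤ Real.log ((4 * N : ℕ) : ℝ) := Real.log_natCast_nonneg _
    linarith
  have hL7 : (1 + Real.log ((4 * N : ℕ) : ℝ)) ^ 7 ≤ 128 * ℓ ^ 7 := by
    calc _ ≤ (2 * ℓ) ^ 7 := pow_le_pow_left₀ hL0 hL 7
      _ = _ := by ring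
  have c1 : ((4 * N : ℕ) : ℝ) / √(y : ℝ) ≤ 4 * (N / ℓ ^ (D + 8)) := by
    have : ℓ ^ (D + 8) ≤ √(y : ℝ) := by
      refine le_trans (pow_le_pow_right₀ hℓ1 (by omega : D + 8 ≤ D + 9)) ?_
      apply Real.le_sqrt_of_sq_le
      rw [← pow_mul]
      have e : (D + 9) * 2 = 2 * D + 18 := by omega
      rw [e]; exact hy
    push_cast
    rw [mul_div_assoc]
    gcongr
  have c2 : ((4 * N : ℕ) : ℝ) ^ (4 / 5 : ℝ) ≤ 4 * (N / ℓ ^ (D + 8)) := by
    push_cast
    rw [Real.mul_rpow (by norm_num) hN0.le]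
    have d1 : (4 : ℝ) ^ (4 / 5 : ℝ) ≤ 4 := by
      calc (4 : ℝ) ^ (4 / 5 : ℝ) ≤ (4 : ℝ) ^ (1 : ℝ) :=
            Real.rpow_le_rpow_of_exponent_le (by norm_num) (by norm_num)
        _ = 4 := Real.rpow_one _
    have d2 : (N : ℝ) ^ (4 / 5 : ℝ) ≤ N / ℓ ^ (D + 8) := by
      rw [le_div_iff₀ (by positivity)]
      calc (N : ℝ) ^ (4 / 5 : ℝ) * ℓ ^ (D + 8) ≤ (N : ℝ) ^ (4 / 5 : ℝ) * (N : ℝ) ^ (1 / 5 : ℝ) := by
            apply mul_le_mul_of_nonneg_left _ (by positivity)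
            have : 0 ≤ ℓ ^ (D + 8) := by positivity
            linarith
        _ = N := by rw [← Real.rpow_add hN0]; norm_num
    gcongr
  have c3 : √(((4 * N : ℕ) : ℝ) * (N / ℓ ^ (2 * D + 18))) ≤ 2 * (N / ℓ ^ (D + 8)) := by
    have : √(((4 * N : ℕ) : ℝ) * (N / ℓ ^ (2 * D + 18))) ≤ 2 * (N / ℓ ^ (D + 9)) := by
      apply Real.sqrt_le_iff.2
      refine ⟨by positivity, le_of_eq ?_⟩
      push_cast
      rw [mul_pow, div_pow, ← pow_mul]
      have e : (D + 9) * 2 = 2 * D + 18 := by omega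
      rw [e]
      field_simp
      norm_num
    refine this.trans ?_
    gcongr
    norm_num
  have c4 : ((4 * N : ℕ) : ℝ) * H1 / (N / ℓ ^ (2 * D + 18)) ≤ 4 * (N / ℓ ^ (D + 1)) := by
    push_cast
    calc 4 * (N : ℝ) * H1 / (N / ℓ ^ (2 * D + 18)) ≤
          4 * (N : ℝ) * (N / ℓ ^ (3 * D + 19)) / (N / ℓ ^ (2 * D + 18)) := by gcongr
      _ = _ := by
          have e : ℓ ^ (3 * D + 19) = ℓ ^ (2 * D + 18) * ℓ ^ (D + 1) := by
            rw [← pow_add]; congr 1; omega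
          rw [e]
          field_simp
  have hA : 0 ≤ (N : ℝ) / ℓ ^ (D + 8) := by positivity
  have key : ERR (4 * N) y H1 (N / ℓ ^ (2 * D + 18)) ≤ (1284 / ℓ) * (N / ℓ ^ D) := by
    unfold ERR
    have d1 : (1 + Real.log ((4 * N : ℕ) : ℝ)) ^ 7 * (((4 * N : ℕ) : ℝ) / √(y : ℝ) +
        ((4 * N : ℕ) : ℝ) ^ (4 / 5 : ℝ) + √(((4 * N : ℕ) : ℝ) * (N / ℓ ^ (2 * D + 18)))) ≤
        (128 * ℓ ^ 7) * (10 * (N / ℓ ^ (D + 8))) := by
      apply mul_le_mul hL7 (by linarith) (by positivity) (by positivity)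
    have d2 : (128 * ℓ ^ 7) * (10 * (N / ℓ ^ (D + 8))) = (1280 / ℓ) * (N / ℓ ^ D) := by
      have e : ℓ ^ (D + 8) = ℓ ^ D * ℓ ^ 7 * ℓ := by ring
      rw [e]
      field_simp
      norm_num
    have d3 : 4 * (N / ℓ ^ (D + 1)) = (4 / ℓ) * (N / ℓ ^ D) := by
      rw [pow_succ]; field_simp
    calc _ ≤ (1280 / ℓ) * (N / ℓ ^ D) + (4 / ℓ) * (N / ℓ ^ D) := by
          rw [← d2, ← d3]; exact add_le_add d1 c4
      _ = _ := by ring
  calc C0 * ERR (4 * N) y H1 (N / ℓ ^ (2 * D + 18)) ≤ C0 * ((1284 / ℓ) * (N / ℓ ^ D)) :=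
        mul_le_mul_of_nonneg_left key hC0.le
    _ = (C0 * 1284 / ℓ) * (N / ℓ ^ D) := by ring
    _ ≤ 1 * (N / ℓ ^ D) := by
        apply mul_le_mul_of_nonneg_right _ (by positivity)
        rw [div_le_one hℓ0]; linarith
    _ = _ := one_mul _

lemma TS_pnt (s : ℕ → ℕ) (x : ℕ) (B : Finset ℕ) (N y : ℕ) (hs : ∀ m ∈ Icc 1 x, s m ≤ N)
    (hB : ∀ b ∈ B, b ≤ N) (hy : y ≤ 2 * N) (E : ℝ)
    (hE : ∀ m : ℕ, m ≤ 4 * N → |Chebyshev.theta (m : ℝ) - m| ≤ E) :
    |TS s x B y - (x : ℝ) * B.card * y| ≤ (x : ℝ) * B.card * (2 * E) := by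
  have hc : ((Icc 1 x).card : ℝ) = x := by rw [Nat.card_Icc]; simp
  have e : TS s x B y - (x : ℝ) * B.card * y = ∑ a ∈ Icc 1 x, ∑ b ∈ B,
      (Chebyshev.theta ((s a + b + y : ℕ) : ℝ) - Chebyshev.theta ((s a + b : ℕ) : ℝ) - y) := by
    unfold TS
    simp_rw [sum_om_Ioc, sum_sub_distrib, sum_const, nsmul_eq_mul]
    rw [hc]
    ring
  rw [e]
  refine (abs_sum_le_sum_abs _ _).trans ?_
  have : ∀ a ∈ Icc 1 x, |∑ b ∈ B, (Chebyshev.theta ((s a + b + y : ℕ) : ℝ) -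
      Chebyshev.theta ((s a + b : ℕ) : ℝ) - y)| ≤ B.card * (2 * E) := by
    intro a ha
    refine (abs_sum_le_sum_abs _ _).trans ?_
    have h2 : ∀ b ∈ B, |Chebyshev.theta ((s a + b + y : ℕ) : ℝ) -
        Chebyshev.theta ((s a + b : ℕ) : ℝ) - y| ≤ 2 * E := by
      intro b hb
      have h3 := hE (s a + b + y) (by have := hs a ha; have := hB b hb; omega)
      have h4 := hE (s a + b) (by have := hs a ha; have := hB b hb; omega)
      rw [abs_le] at h3 h4 ⊢
      push_cast at h3 h4 ⊢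
      constructor <;> linarith
    refine (sum_le_sum h2).trans ?_
    rw [sum_const, nsmul_eq_mul]
  refine (sum_le_sum this).trans ?_
  rw [sum_const, nsmul_eq_mul, hc]
  linarith

lemma sum_om_sq (N : ℕ) : ∑ n ∈ Icc 1 N, om n ^ 2 ≤ N * Real.log N ^ 2 := by
  have h : ∀ n ∈ Icc 1 N, om n ^ 2 ≤ Real.log N ^ 2 := by
    intro n hn
    rw [mem_Icc] at hn
    apply pow_le_pow_left₀ (om_nonneg n)
    unfold om
    split_ifs with hp
    · apply Real.log_le_log
      · exact_mod_cast hp.pos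
      · exact_mod_cast hn.2
    · exact Real.log_natCast_nonneg _
  refine (sum_le_sum h).trans ?_
  rw [sum_const, nsmul_eq_mul, Nat.card_Icc]
  simp

/-- Sums over pairs, weighted by `log p`. -/
theorem thetaFam (C p : ℕ) (hp : 1 ≤ p) (ε : ℝ) (hε : 0 < ε) : ∃ K : ℕ, ∀ᶠ N : ℕ in atTop,
    ∀ (s : ℕ → ℕ) (x : ℕ), (∀ m ∈ Icc 1 x, s m ≤ N) →
    (energy p x (fun m => (s m : ℤ)) : ℝ) * N ≤ Real.log N ^ C * (x : ℝ) ^ (2 * p) →
    ∀ B : Finset ℕ, (∀ b ∈ B, b ≤ N) → (N : ℝ) ≤ B.card * Real.log N ^ C →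
    ∀ y : ℕ, Real.log N ^ K ≤ y → y ≤ 2 * N →
    |TS s x B y - (x : ℝ) * B.card * y| ≤ ε * ((x : ℝ) * B.card * y) := by
  obtain ⟨C1, hC1⟩ := vinoP
  have hC' : VC C1 := hC1
  have hC1p : 0 < C1 := hC1.1
  set D : ℕ := 5 * p + C + p * (C + 1) with hD
  set K2 : ℕ := 2 * D + 18 with hK2
  set K1 : ℕ := 3 * D + 19 with hK1
  refine ⟨K2, ?_⟩
  filter_upwards [ev_L (8 / ε + 16 / ε + 16), ev_log (K1 + 1) 2 1 (by norm_num),
    err_ev (6 * C1 + 26) (by linarith) D, pnt_unif (K1 + 1), eventually_ge_atTop 16] with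
    N h1 h2 herr h4 hN16 s x hs hen B hB hBN y hy1 hy2
  have hNr : (16 : ℝ) ≤ N := by exact_mod_cast hN16
  have hN0 : (0 : ℝ) < N := by linarith
  set ℓ := Real.log N with hℓ
  have hc1 : 0 < 8 / ε := by positivity
  have hc2 : 0 < 16 / ε := by positivity
  have hℓ16 : 16 ≤ ℓ := by linarith
  have hℓ0 : 0 < ℓ := by linarith
  have hℓ1 : 1 ≤ ℓ := by linarith
  rw [Real.rpow_one] at h2
  set P : ℝ := (x : ℝ) * B.card with hP
  have hP0 : 0 ≤ P := by positivity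
  -- the long length
  set H1 : ℕ := ⌊(N : ℝ) / ℓ ^ K1⌋₊ with hH1
  have hH1le : (H1 : ℝ) ≤ N / ℓ ^ K1 := Nat.floor_le (by positivity)
  have hbig : 2 ≤ (N : ℝ) / ℓ ^ K1 := by
    rw [le_div_iff₀ (by positivity)]
    calc 2 * ℓ ^ K1 ≤ 2 * ℓ ^ (K1 + 1) := by
          apply mul_le_mul_of_nonneg_left _ (by norm_num)
          exact pow_le_pow_right₀ (by linarith) (by omega)
      _ ≤ N := h2
  have hH1ge : (N : ℝ) / ℓ ^ K1 ≤ 2 * H1 := by
    have := Nat.lt_floor_add_one ((N : ℝ) / ℓ ^ K1)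
    rw [← hH1] at this
    linarith
  have hH1pos : 1 ≤ H1 := Nat.le_floor (by push_cast; linarith)
  have hH1N : H1 ≤ N := by
    have : (H1 : ℝ) ≤ N := hH1le.trans (div_le_self hN0.le (one_le_pow₀ (by linarith)))
    exact_mod_cast this
  have hH10 : (0 : ℝ) < H1 := by exact_mod_cast hH1pos
  -- prime number theorem for lengths at least `H1`
  have hlong : ∀ z : ℕ, H1 ≤ z → z ≤ 2 * N → |TS s x B z - P * z| ≤ (ε / 4) * (P * z) := by
    intro z hz1 hz2
    have a1 := TS_pnt s x B N z hs hB hz2 (N / ℓ ^ (K1 + 1)) h4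
    refine a1.trans ?_
    have hz : (H1 : ℝ) ≤ z := by exact_mod_cast hz1
    have a2 : 2 * (N / ℓ ^ (K1 + 1)) ≤ (4 / ℓ) * z := by
      calc 2 * (N / ℓ ^ (K1 + 1)) = (2 / ℓ) * (N / ℓ ^ K1) := by rw [pow_succ]; field_simp
        _ ≤ (2 / ℓ) * (2 * H1) := by gcongr
        _ ≤ (2 / ℓ) * (2 * z) := by gcongr
        _ = _ := by ring
    have a3 : 4 / ℓ ≤ ε / 4 := by
      rw [div_le_div_iff₀ hℓ0 (by norm_num)]
      have : 16 / ε ≤ ℓ := by linarith
      rw [div_le_iff₀ hε] at this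
      linarith
    calc P * (2 * (N / ℓ ^ (K1 + 1))) ≤ P * ((4 / ℓ) * z) := by gcongr
      _ ≤ P * ((ε / 4) * z) := by gcongr
      _ = _ := by ring
  rcases le_or_gt H1 y with hcase | hcase
  · refine (hlong y hcase hy2).trans ?_
    apply mul_le_mul_of_nonneg_right _ (by positivity)
    linarith
  · -- short lengths
    have hy0 : (1 : ℝ) ≤ y := le_trans (one_le_pow₀ (by linarith)) hy1
    have hy1n : 1 ≤ y := by exact_mod_cast hy0
    have hyp : (0 : ℝ) < y := by linarith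
    set M : ℕ := (2 * p + 5) * N with hM
    have hM1 : 1 ≤ M := by rw [hM]; exact Nat.mul_pos (by omega) (by omega)
    have hM4 : 4 * N < M := by
      rw [hM]; exact Nat.mul_lt_mul_of_pos_right (by omega) (by omega)
    have hM5 : 2 * p * N < M := by
      rw [hM]; exact Nat.mul_lt_mul_of_pos_right (by omega) (by omega)
    have hM0 : (0 : ℝ) < M := by exact_mod_cast hM1
    set W : ℝ := N / ℓ ^ D with hW
    have herr' := herr y H1 hy1 hH1le
    have key := TS_diff hp hM4 s x B hs hM5 (fun b hb => by have := hB b hb; omega) y H1 hcase.le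
      (fun m hm b hb => by have := hs m hm; have := hB b hb; omega) W (fun r hr => by
        rw [mem_range] at hr
        exact (all_points hC' (by omega) hM1 y H1 hy1n hcase.le (N / ℓ ^ K2) (by positivity) r hr).trans
          herr')
    -- bounds for the factors
    have hBc : (B.card : ℝ) ≤ 2 * N := by
      have h5 : B ⊆ range (N + 1) := fun b hb => mem_range.2 (by have := hB b hb; omega)
      have h6 := card_le_card h5
      rw [card_range] at h6
      have h7 : (B.card : ℝ) ≤ N + 1 := by exact_mod_cast h6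
      linarith
    have hlog4 : Real.log ((4 * N : ℕ) : ℝ) ≤ 2 * ℓ := by
      push_cast
      rw [Real.log_mul (by norm_num) (by linarith)]
      have := log4
      linarith
    have hom : ∑ n ∈ Icc 1 (4 * N), om n ^ 2 ≤ 16 * (N * ℓ ^ 2) := by
      refine (sum_om_sq _).trans ?_
      have h5 : Real.log ((4 * N : ℕ) : ℝ) ^ 2 ≤ (2 * ℓ) ^ 2 :=
        pow_le_pow_left₀ (Real.log_natCast_nonneg _) hlog4 2
      calc ((4 * N : ℕ) : ℝ) * Real.log ((4 * N : ℕ) : ℝ) ^ 2 ≤ ((4 * N : ℕ) : ℝ) * (2 * ℓ) ^ 2 := by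
            gcongr
        _ = _ := by push_cast; ring
    have hen' : (energy p x (fun m => (s m : ℤ)) : ℝ) ≤ ℓ ^ C * (x : ℝ) ^ (2 * p) / N := by
      rw [le_div_iff₀ hN0]; exact hen
    have hmain : ((M : ℝ) * |TS s x B y / y - TS s x B H1 / H1|) ^ (2 * p) ≤
        ((M : ℝ) * (N * x / ℓ ^ (C + 1))) ^ (2 * p) := by
      refine key.trans ?_
      have e0 : (2 : ℝ) ^ p * 64 ^ (p - 1) ≤ ℓ ^ (8 * p) := by
        calc (2 : ℝ) ^ p * 64 ^ (p - 1) ≤ 2 ^ p * 64 ^ p := by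
              gcongr
              · norm_num
              · omega
          _ = 128 ^ p := by rw [← mul_pow]; norm_num
          _ ≤ (ℓ ^ 8) ^ p := by
              apply pow_le_pow_left₀ (by norm_num)
              calc (128 : ℝ) ≤ 16 ^ 8 := by norm_num
                _ ≤ ℓ ^ 8 := pow_le_pow_left₀ (by norm_num) hℓ16 8
          _ = _ := by rw [← pow_mul]
      calc ((M : ℝ) * B.card) ^ p * ((4 * ((M : ℝ) * ∑ n ∈ Icc 1 (4 * N), om n ^ 2)) ^ (p - 1) *
            (W ^ 2 * ((M : ℝ) * energy p x (fun m => (s m : ℤ))))) ≤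
          ((M : ℝ) * (2 * N)) ^ p * ((4 * ((M : ℝ) * (16 * (N * ℓ ^ 2)))) ^ (p - 1) *
            (W ^ 2 * ((M : ℝ) * (ℓ ^ C * (x : ℝ) ^ (2 * p) / N)))) := by gcongr
        _ = ((2 : ℝ) ^ p * 64 ^ (p - 1)) * (ℓ ^ (2 * (p - 1)) * ℓ ^ C / ℓ ^ (2 * D)) *
            ((M : ℝ) * (N * x)) ^ (2 * p) := by
            obtain ⟨q, rfl⟩ : ∃ q, p = q + 1 := ⟨p - 1, by omega⟩
            rw [Nat.add_sub_cancel, hW, div_pow, ← pow_mul, mul_comm D 2]
            have e1 : (4 * ((M : ℝ) * (16 * (N * ℓ ^ 2)))) ^ q = 64 ^ q * ((M : ℝ) * N) ^ q * ℓ ^ (2 * q) := by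
              rw [pow_mul, ← mul_pow, ← mul_pow]; congr 1; ring
            rw [e1]
            field_simp
            ring
        _ ≤ ℓ ^ (8 * p) * (ℓ ^ (2 * (p - 1)) * ℓ ^ C / ℓ ^ (2 * D)) *
            ((M : ℝ) * (N * x)) ^ (2 * p) := by gcongr
        _ ≤ (1 / ℓ ^ (C + 1)) ^ (2 * p) * ((M : ℝ) * (N * x)) ^ (2 * p) := by
            apply mul_le_mul_of_nonneg_right _ (by positivity)
            rw [div_pow, one_pow, ← pow_mul, mul_div_assoc', div_le_div_iff₀ (by positivity) (by positivity),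
              one_mul, ← pow_add, ← pow_add, ← pow_add]
            apply pow_le_pow_right₀ hℓ1
            rw [hD]
            obtain ⟨q, rfl⟩ : ∃ q, p = q + 1 := ⟨p - 1, by omega⟩
            rw [Nat.add_sub_cancel]
            ring_nf
            omega
        _ = _ := by
            rw [← mul_pow]; congr 1; ring
    have hdiff : |TS s x B y / y - TS s x B H1 / H1| ≤ N * x / ℓ ^ (C + 1) := by
      have h5 := (pow_le_pow_iff_left₀ (by positivity) (by positivity) (by omega)).1 hmain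
      exact le_of_mul_le_mul_left h5 hM0
    have hdiff2 : |TS s x B y / y - TS s x B H1 / H1| ≤ (1 / ℓ) * P := by
      refine hdiff.trans ?_
      calc N * x / ℓ ^ (C + 1) ≤ (B.card * ℓ ^ C) * x / ℓ ^ (C + 1) := by gcongr
        _ = _ := by rw [hP, pow_succ]; field_simp
    have b2 := hlong H1 le_rfl (by omega)
    have b3 : |TS s x B H1 / H1 - P| ≤ (ε / 4) * P := by
      have e : TS s x B H1 / H1 - P = (TS s x B H1 - P * H1) / H1 := by field_simp
      rw [e, abs_div, abs_of_pos hH10, div_le_iff₀ hH10]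
      linarith
    have b4 : |TS s x B y / y - P| ≤ ε * P := by
      have h5 : 1 / ℓ ≤ ε / 4 := by
        rw [div_le_div_iff₀ hℓ0 (by norm_num)]
        have : 8 / ε ≤ ℓ := by linarith
        rw [div_le_iff₀ hε] at this
        linarith
      have h6 : (1 / ℓ) * P ≤ (ε / 4) * P := mul_le_mul_of_nonneg_right h5 hP0
      have h7 : 0 ≤ ε * P := by positivity
      rw [abs_le] at hdiff2 b3 ⊢
      constructor <;> linarith [hdiff2.1, hdiff2.2, b3.1, b3.2]
    have e : TS s x B y - P * y = (TS s x B y / y - P) * y := by field_simp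
    rw [e, abs_mul, abs_of_pos hyp]
    calc |TS s x B y / y - P| * y ≤ (ε * P) * y := mul_le_mul_of_nonneg_right b4 hyp.le
      _ = _ := by ring

end Pool.Agent.X25.TE
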