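import Mathlib
import Pool.Agent.X25.TE.Fam

/-! From weights `log p` to counts of primes; exceptional shifts. -/

set_option autoImplicit false

namespace Pool.Agent.X25.TE
open Finset Filter
open Pool.Agent.W301.SS
open Pool.Agent.H373R2.T7 (energy)

/-- the number of pairs `(m, p)` with a prime `p` in `(s m + b, s m + b + y]` -/
noncomputable def cf (s : ℕ → ℕ) (x b y : ℕ) : ℝ := ∑ m ∈ Icc 1 x, (pn (s m + b) y : ℝ)

/-- the number of triples -/
noncomputable def PS (s : ℕ → ℕ) (x : ℕ) (B : Finset ℕ) (y : ℕ) : ℝ :=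
  ∑ m ∈ Icc 1 x, ∑ b ∈ B, (pn (s m + b) y : ℝ)

lemma PS_eq (s : ℕ → ℕ) (x : ℕ) (B : Finset ℕ) (y : ℕ) : PS s x B y = ∑ b ∈ B, cf s x b y := by
  unfold PS cf
  rw [sum_comm]

lemma cf_mono (s : ℕ → ℕ) (x b : ℕ) {y z : ℕ} (h : y ≤ z) : cf s x b y ≤ cf s x b z := by
  unfold cf
  apply sum_le_sum
  intro a _
  exact_mod_cast pn_mono h

lemma conv_low {s : ℕ → ℕ} {x : ℕ} {B : Finset ℕ} {N y : ℕ} (hs : ∀ m ∈ Icc 1 x, s m ≤ N)
    (hB : ∀ b ∈ B, b ≤ N) (hy : y ≤ 2 * N) (L : ℝ) (hL : Real.log ((4 * N : ℕ) : ℝ) ≤ L) :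
    TS s x B y ≤ L * PS s x B y := by
  unfold TS PS
  rw [mul_sum]
  apply sum_le_sum
  intro a ha
  rw [mul_sum]
  apply sum_le_sum
  intro b hb
  rw [pn_eq, mul_sum]
  apply sum_le_sum
  intro h hh
  rw [mem_Ioc] at hh
  unfold om
  split_ifs with hp
  · rw [mul_one]
    refine le_trans (Real.log_le_log ?_ ?_) hL
    · exact_mod_cast hp.pos
    · have := hs a ha
      have := hB b hb
      exact_mod_cast (by omega : s a + b + h ≤ 4 * N)
  · rw [mul_zero]

lemma conv_up {s : ℕ → ℕ} {x : ℕ} {B : Finset ℕ} {X y : ℕ} (L : ℝ) (hL0 : 0 ≤ L)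
    (hL : L ≤ Real.log (X : ℝ)) (hX : 1 ≤ X) :
    L * PS s x B y ≤ TS s x B y + L * ((x : ℝ) * X * y) := by
  have h0 : ∀ m ∈ Icc 1 x, L * ∑ b ∈ B, (pn (s m + b) y : ℝ) ≤
      ∑ b ∈ B, ∑ h ∈ Ioc 0 y, om (s m + b + h) + L * (X * y) := by
    intro m _
    rw [mul_sum, ← sum_filter_add_sum_filter_not B (fun b => s m + b < X),
      ← sum_filter_add_sum_filter_not B (fun b => s m + b < X)
        (fun b => ∑ h ∈ Ioc 0 y, om (s m + b + h))]
    have h1 : ∑ b ∈ B.filter (fun b => s m + b < X), L * (pn (s m + b) y : ℝ) ≤ L * (X * y) := by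
      have h2 : ∀ b ∈ B.filter (fun b => s m + b < X), L * (pn (s m + b) y : ℝ) ≤ L * y := by
        intro b _
        apply mul_le_mul_of_nonneg_left _ hL0
        exact_mod_cast pn_le _ _
      refine (sum_le_sum h2).trans ?_
      rw [sum_const, nsmul_eq_mul]
      have h3 : B.filter (fun b => s m + b < X) ⊆ range X := by
        intro b hb
        rw [mem_filter] at hb
        rw [mem_range]; omega
      have h4 := card_le_card h3
      rw [card_range] at h4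
      have h5 : ((B.filter (fun b => s m + b < X)).card : ℝ) ≤ X := by exact_mod_cast h4
      calc _ ≤ (X : ℝ) * (L * y) := mul_le_mul_of_nonneg_right h5 (by positivity)
        _ = _ := by ring
    have h2 : ∑ b ∈ B.filter (fun b => ¬ (s m + b < X)), L * (pn (s m + b) y : ℝ) ≤
        ∑ b ∈ B.filter (fun b => ¬ (s m + b < X)), ∑ h ∈ Ioc 0 y, om (s m + b + h) := by
      apply sum_le_sum
      intro b hb
      rw [mem_filter] at hb
      rw [pn_eq, mul_sum]
      apply sum_le_sum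
      intro h hh
      unfold om
      split_ifs with hp
      · rw [mul_one]
        refine hL.trans (Real.log_le_log ?_ ?_)
        · exact_mod_cast (by omega : 0 < X)
        · exact_mod_cast (by omega : X ≤ s m + b + h)
      · rw [mul_zero]
    have h3 : 0 ≤ ∑ b ∈ B.filter (fun b => s m + b < X), ∑ h ∈ Ioc 0 y, om (s m + b + h) :=
      sum_nonneg fun _ _ => sum_nonneg fun _ _ => om_nonneg _
    linarith
  unfold PS TS
  rw [mul_sum]
  refine (sum_le_sum h0).trans ?_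
  rw [sum_add_distrib, sum_const, nsmul_eq_mul, Nat.card_Icc]
  simp only [Nat.add_sub_cancel]
  apply le_of_eq
  ring

/-- numerical facts for the conversion, valid for all large `N` -/
lemma ev_conv' (C : ℕ) (δ : ℝ) (hδ : 0 < δ) (hδ1 : δ ≤ 1 / 4) : ∀ᶠ N : ℕ in atTop,
    ∃ X : ℕ, 1 ≤ X ∧ (1 - δ) * Real.log N ≤ Real.log X ∧
      (1 - δ) * Real.log N * X * Real.log N ^ C ≤ δ * N := by
  filter_upwards [ev_log (C + 1) (2 / δ) δ hδ, eventually_ge_atTop 16] with N h2 hN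
  have hNr : (16 : ℝ) ≤ N := by exact_mod_cast hN
  have hN0 : (0 : ℝ) < N := by linarith
  have hN1 : (1 : ℝ) ≤ N := by linarith
  set ℓ := Real.log N with hℓ
  have hℓ0 : 0 ≤ ℓ := Real.log_nonneg hN1
  set X : ℕ := ⌈(N : ℝ) ^ (1 - δ)⌉₊ with hX
  have h3 : 1 ≤ (N : ℝ) ^ (1 - δ) := Real.one_le_rpow hN1 (by linarith)
  have h4 : (N : ℝ) ^ (1 - δ) ≤ X := Nat.le_ceil _
  have h5 : (X : ℝ) ≤ 2 * (N : ℝ) ^ (1 - δ) := by
    have := Nat.ceil_lt_add_one (show 0 ≤ (N : ℝ) ^ (1 - δ) by linarith)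
    rw [← hX] at this
    linarith
  refine ⟨X, ?_, ?_, ?_⟩
  · have : (1 : ℝ) ≤ X := h3.trans h4
    exact_mod_cast this
  · rw [← Real.log_rpow hN0]
    exact Real.log_le_log (by positivity) h4
  · have h7 : (1 - δ) * ℓ ≤ ℓ := by nlinarith
    have h8 : 2 * ℓ ^ (C + 1) ≤ δ * (N : ℝ) ^ δ := by
      calc 2 * ℓ ^ (C + 1) = δ * (2 / δ * ℓ ^ (C + 1)) := by field_simp
        _ ≤ _ := mul_le_mul_of_nonneg_left h2 hδ.le
    calc (1 - δ) * ℓ * X * ℓ ^ C ≤ ℓ * (2 * (N : ℝ) ^ (1 - δ)) * ℓ ^ C := by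
          apply mul_le_mul_of_nonneg_right _ (by positivity)
          apply mul_le_mul h7 h5 (by positivity) hℓ0
      _ = (2 * ℓ ^ (C + 1)) * (N : ℝ) ^ (1 - δ) := by ring
      _ ≤ (δ * (N : ℝ) ^ δ) * (N : ℝ) ^ (1 - δ) := mul_le_mul_of_nonneg_right h8 (by positivity)
      _ = δ * N := by
          rw [mul_assoc, ← Real.rpow_add hN0]
          congr 1
          rw [show δ + (1 - δ) = 1 by ring, Real.rpow_one]

/-- Sums over pairs, for the number of primes. -/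
theorem countFam (C p : ℕ) (hp : 1 ≤ p) (ε : ℝ) (hε : 0 < ε) (hε1 : ε ≤ 1) : ∃ K : ℕ, ∀ᶠ N : ℕ in atTop,
    ∀ (s : ℕ → ℕ) (x : ℕ), (∀ m ∈ Icc 1 x, s m ≤ N) →
    (energy p x (fun m => (s m : ℤ)) : ℝ) * N ≤ Real.log N ^ C * (x : ℝ) ^ (2 * p) →
    ∀ B : Finset ℕ, (∀ b ∈ B, b ≤ N) → (N : ℝ) ≤ B.card * Real.log N ^ C →
    ∀ y : ℕ, Real.log N ^ K ≤ y → y ≤ 2 * N →
    |PS s x B y * Real.log N - (x : ℝ) * B.card * y| ≤ ε * ((x : ℝ) * B.card * y) := by
  obtain ⟨K, hK⟩ := thetaFam C p hp (ε / 4) (by linarith)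
  refine ⟨K, ?_⟩
  filter_upwards [hK, ev_conv (ε / 4) (by linarith) (by linarith),
    ev_conv' C (ε / 4) (by linarith) (by linarith), ev_L 1, eventually_ge_atTop 16] with
    N h1 h2 h2' h3 hN16 s x hs hen B hB hBN y hy1 hy2
  obtain ⟨h5, _⟩ := h2
  obtain ⟨X, hX1, hX2, hX3⟩ := h2'
  have hNr : (16 : ℝ) ≤ N := by exact_mod_cast hN16
  have hN0 : (0 : ℝ) < N := by linarith
  have h6 := h1 s x hs hen B hB hBN y hy1 hy2
  set ℓ := Real.log N with hℓ
  have hℓ0 : 0 < ℓ := by linarith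
  set P : ℝ := (x : ℝ) * B.card with hP
  have hP0 : 0 ≤ P := by positivity
  have h7 := conv_low hs hB hy2 ((1 + ε / 4) * ℓ) h5
  have h8 := conv_up (s := s) (x := x) (B := B) (X := X) (y := y) ((1 - ε / 4) * ℓ) (by nlinarith) hX2 hX1
  have h9 : (1 - ε / 4) * ℓ * ((x : ℝ) * X * y) ≤ (ε / 4) * (P * y) := by
    have a1 : (1 - ε / 4) * ℓ * X ≤ (ε / 4) * B.card := by
      have a2 : (1 - ε / 4) * ℓ * X * ℓ ^ C ≤ ((ε / 4) * B.card) * ℓ ^ C := by
        refine hX3.trans ?_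
        calc ε / 4 * N ≤ ε / 4 * (B.card * ℓ ^ C) := mul_le_mul_of_nonneg_left hBN (by linarith)
          _ = _ := by ring
      exact le_of_mul_le_mul_right a2 (by positivity)
    calc (1 - ε / 4) * ℓ * ((x : ℝ) * X * y) = ((1 - ε / 4) * ℓ * X) * ((x : ℝ) * y) := by ring
      _ ≤ ((ε / 4) * B.card) * ((x : ℝ) * y) := mul_le_mul_of_nonneg_right a1 (by positivity)
      _ = _ := by rw [hP]; ring
  have hPy : 0 ≤ P * y := by positivity
  have hPC : 0 ≤ PS s x B y := by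
    unfold PS
    exact sum_nonneg fun _ _ => sum_nonneg fun _ _ => Nat.cast_nonneg _
  rw [abs_le] at h6 ⊢
  constructor
  · -- lower bound
    have b1 : (1 - ε / 4) * (P * y) ≤ (1 + ε / 4) * (PS s x B y * ℓ) := by
      calc (1 - ε / 4) * (P * y) ≤ TS s x B y := by linarith
        _ ≤ _ := by linarith
    have b2 : (1 - ε) * (1 + ε / 4) ≤ 1 - ε / 4 := by nlinarith
    have b3 : (1 + ε / 4) * ((1 - ε) * (P * y)) ≤ (1 + ε / 4) * (PS s x B y * ℓ) := by
      refine le_trans ?_ b1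
      calc (1 + ε / 4) * ((1 - ε) * (P * y)) = ((1 - ε) * (1 + ε / 4)) * (P * y) := by ring
        _ ≤ _ := mul_le_mul_of_nonneg_right b2 hPy
    have b4 := le_of_mul_le_mul_left b3 (by linarith)
    linarith
  · have b1 : (1 - ε / 4) * (PS s x B y * ℓ) ≤ (1 + ε / 2) * (P * y) := by
      calc (1 - ε / 4) * (PS s x B y * ℓ) = (1 - ε / 4) * ℓ * PS s x B y := by ring
        _ ≤ TS s x B y + (1 - ε / 4) * ℓ * ((x : ℝ) * X * y) := h8
        _ ≤ _ := by linarith
    have b2 : 1 + ε / 2 ≤ (1 - ε / 4) * (1 + ε) := by nlinarith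
    have b3 : (1 - ε / 4) * (PS s x B y * ℓ) ≤ (1 - ε / 4) * ((1 + ε) * (P * y)) := by
      refine b1.trans ?_
      calc (1 + ε / 2) * (P * y) ≤ ((1 - ε / 4) * (1 + ε)) * (P * y) :=
            mul_le_mul_of_nonneg_right b2 hPy
        _ = _ := by ring
    have b4 := le_of_mul_le_mul_left b3 (by linarith)
    linarith

/-- the exceptional shifts for one length -/
noncomputable def Bad (s : ℕ → ℕ) (x N g : ℕ) (η : ℝ) : Finset ℕ := by
  classical
  exact (Icc 1 N).filter (fun b => η * ((x : ℝ) * g) < |cf s x b g * Real.log N - (x : ℝ) * g|)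

lemma bad_card {s : ℕ → ℕ} {x N g k : ℕ} {η : ℝ} (hN : 2 ≤ N)
    (hpair : ∀ B : Finset ℕ, (∀ b ∈ B, b ≤ N) → (N : ℝ) ≤ B.card * Real.log N ^ k →
      |PS s x B g * Real.log N - (x : ℝ) * B.card * g| ≤ η * ((x : ℝ) * B.card * g)) :
    ((Bad s x N g η).card : ℝ) * Real.log N ^ k ≤ 2 * N := by
  classical
  have hN0 : (0 : ℝ) < N := by exact_mod_cast (by omega : 0 < N)
  set ℓ := Real.log N with hℓ
  have hℓ0 : 0 < ℓ := Real.log_pos (by exact_mod_cast (by omega : 1 < N))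
  set Bp : Finset ℕ := (Icc 1 N).filter (fun b => η * ((x : ℝ) * g) < cf s x b g * ℓ - (x : ℝ) * g)
    with hBp
  set Bm : Finset ℕ := (Icc 1 N).filter (fun b => η * ((x : ℝ) * g) < (x : ℝ) * g - cf s x b g * ℓ)
    with hBm
  have hsub : Bad s x N g η ⊆ Bp ∪ Bm := by
    intro b hb
    unfold Bad at hb
    rw [mem_filter] at hb
    rw [mem_union, hBp, hBm, mem_filter, mem_filter]
    rcases lt_abs.1 hb.2 with h | h
    · exact Or.inl ⟨hb.1, h⟩
    · exact Or.inr ⟨hb.1, by linarith⟩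
  have hcard : ((Bad s x N g η).card : ℝ) ≤ Bp.card + Bm.card := by
    exact_mod_cast (card_le_card hsub).trans (card_union_le _ _)
  have hne : ∀ B : Finset ℕ, (N : ℝ) < B.card * ℓ ^ k → B.Nonempty := by
    intro B h
    by_contra hne
    rw [not_nonempty_iff_eq_empty] at hne
    rw [hne] at h
    simp at h
    linarith
  have hp : (Bp.card : ℝ) * ℓ ^ k ≤ N := by
    by_contra hcon
    rw [not_le] at hcon
    have h2 := hpair Bp (fun b hb => by rw [hBp, mem_filter, mem_Icc] at hb; exact hb.1.2) hcon.le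
    have h3 : ∑ b ∈ Bp, η * ((x : ℝ) * g) < ∑ b ∈ Bp, (cf s x b g * ℓ - (x : ℝ) * g) := by
      apply sum_lt_sum_of_nonempty (hne Bp hcon)
      intro b hb
      rw [hBp, mem_filter] at hb
      exact hb.2
    rw [sum_const, nsmul_eq_mul, sum_sub_distrib, ← sum_mul, ← PS_eq, sum_const, nsmul_eq_mul] at h3
    have h4 := (abs_le.1 h2).2
    nlinarith
  have hm : (Bm.card : ℝ) * ℓ ^ k ≤ N := by
    by_contra hcon
    rw [not_le] at hcon
    have h2 := hpair Bm (fun b hb => by rw [hBm, mem_filter, mem_Icc] at hb; exact hb.1.2) hcon.le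
    have h3 : ∑ b ∈ Bm, η * ((x : ℝ) * g) < ∑ b ∈ Bm, ((x : ℝ) * g - cf s x b g * ℓ) := by
      apply sum_lt_sum_of_nonempty (hne Bm hcon)
      intro b hb
      rw [hBm, mem_filter] at hb
      exact hb.2
    rw [sum_const, nsmul_eq_mul, sum_sub_distrib, sum_const, nsmul_eq_mul, ← sum_mul, ← PS_eq] at h3
    have h4 := (abs_le.1 h2).1
    nlinarith
  calc ((Bad s x N g η).card : ℝ) * ℓ ^ k ≤ (Bp.card + Bm.card) * ℓ ^ k :=
        mul_le_mul_of_nonneg_right hcard (by positivity)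
    _ = Bp.card * ℓ ^ k + Bm.card * ℓ ^ k := by ring
    _ ≤ _ := by linarith

/-- **Averages over the translates of a family of small additive energy.** -/
theorem transFam (C p : ℕ) (hp : 1 ≤ p) (ε : ℝ) (hε : 0 < ε) (hε1 : ε ≤ 1) : ∃ K : ℕ, ∀ᶠ N : ℕ in atTop,
    ∀ (s : ℕ → ℕ) (x : ℕ), (∀ m ∈ Icc 1 x, s m ≤ N) →
    (energy p x (fun m => (s m : ℤ)) : ℝ) * N ≤ Real.log N ^ C * (x : ℝ) ^ (2 * p) →
    ∃ E : Finset ℕ, E ⊆ Icc 1 N ∧ (E.card : ℝ) * Real.log N ^ C ≤ N ∧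
      ∀ b ∈ Icc 1 N, b ∉ E → ∀ y : ℕ, Real.log N ^ K ≤ y → y ≤ N →
        |cf s x b y * Real.log N - (x : ℝ) * y| ≤ ε * ((x : ℝ) * y) := by
  classical
  set η : ℝ := ε / 8 with hη
  have hη0 : 0 < η := by positivity
  have hη1 : η ≤ 1 / 8 := by rw [hη]; linarith
  obtain ⟨K, hK⟩ := countFam (C + 2) p hp η hη0 (by linarith)
  have hlr : 0 < Real.log (1 + η) := Real.log_pos (by linarith)
  refine ⟨K + 1, ?_⟩
  filter_upwards [hK, ev_L (1 / η + 2 / Real.log (1 + η) + 8), eventually_ge_atTop 16] with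
    N hpair hL hN16 s x hs hen
  have hNr : (16 : ℝ) ≤ N := by exact_mod_cast hN16
  have hN0 : (0 : ℝ) < N := by linarith
  set ℓ := Real.log N with hℓ
  have hd1 : 0 < 1 / η := by positivity
  have hd2 : 0 < 2 / Real.log (1 + η) := by positivity
  have hℓ8 : 8 ≤ ℓ := by linarith
  have hℓ0 : 0 < ℓ := by linarith
  set c : ℝ := (x : ℝ) with hc
  have hc0 : 0 ≤ c := Nat.cast_nonneg _
  have hen' : (energy p x (fun m => (s m : ℤ)) : ℝ) * N ≤ ℓ ^ (C + 2) * c ^ (2 * p) := by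
    refine hen.trans ?_
    apply mul_le_mul_of_nonneg_right _ (by positivity)
    exact pow_le_pow_right₀ (by linarith) (by omega)
  set E : Finset ℕ := (Icc 1 N).filter (fun b => ∃ y : ℕ, ℓ ^ (K + 1) ≤ y ∧ y ≤ N ∧
    ε * (c * y) < |cf s x b y * ℓ - c * y|) with hE
  set J : ℕ := ⌊ℓ / Real.log (1 + η)⌋₊ + 2 with hJ
  set BB : ℕ → Finset ℕ := fun j => if ℓ ^ K ≤ (gr η j : ℝ) ∧ gr η j ≤ 2 * N then
    Bad s x N (gr η j) η else ∅ with hBB
  have hBBc : ∀ j, ((BB j).card : ℝ) * ℓ ^ (C + 2) ≤ 2 * N := by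
    intro j
    simp only [hBB]
    split_ifs with h
    · exact bad_card (by omega) (fun B hB hBN => hpair s x hs hen' B hB hBN (gr η j) h.1 h.2)
    · simp
  have hsub : E ⊆ (range J).biUnion BB := by
    intro b hb
    rw [hE, mem_filter] at hb
    obtain ⟨hbN, y, hy1, hy2, hy3⟩ := hb
    have hyℓ : ℓ ≤ y := by
      refine le_trans ?_ hy1
      calc ℓ = ℓ ^ 1 := (pow_one _).symm
        _ ≤ ℓ ^ (K + 1) := pow_le_pow_right₀ (by linarith) (by omega)
    have hy0 : (1 : ℝ) ≤ y := by linarith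
    obtain ⟨j, g1, g2, g3, g4, g5⟩ := gr_mem hη0 (by linarith) y (by exact_mod_cast hy0)
      (by linarith)
    have hyK : ℓ ^ K ≤ (gr η j : ℝ) := by
      refine le_trans ?_ g5
      have h1 : ℓ ^ K * ℓ ≤ y := by rw [← pow_succ]; exact hy1
      have h2 : 0 ≤ ℓ ^ K := by positivity
      have h3 : ℓ ^ K * 2 ≤ y := by nlinarith
      have h4 : (1 / 2) * (y : ℝ) ≤ (1 - 2 * η) * y := by nlinarith
      linarith
    have hjJ : j + 1 < J := by
      have h1 : (j : ℝ) ≤ ℓ / Real.log (1 + η) := by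
        rw [le_div_iff₀ hlr, ← Real.log_pow]
        apply Real.log_le_log (by positivity)
        refine g1.trans ?_
        exact_mod_cast hy2
      have h2 : j ≤ ⌊ℓ / Real.log (1 + η)⌋₊ := Nat.le_floor h1
      omega
    have hg2N : gr η (j + 1) ≤ 2 * N := by
      have h1 : (gr η (j + 1) : ℝ) ≤ 2 * N := by
        refine g4.trans ?_
        have : (y : ℝ) ≤ N := by exact_mod_cast hy2
        nlinarith
      exact_mod_cast h1
    have hyN : (y : ℝ) ≤ N := by exact_mod_cast hy2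
    rw [mem_biUnion]
    by_contra hcon
    push Not at hcon
    have n1 := hcon j (mem_range.2 (by omega))
    have n2 := hcon (j + 1) (mem_range.2 hjJ)
    have hgg : (gr η j : ℝ) ≤ gr η (j + 1) := by exact_mod_cast g2.trans g3
    simp only [hBB] at n1 n2
    rw [if_pos ⟨hyK, by omega⟩] at n1
    rw [if_pos ⟨hyK.trans hgg, hg2N⟩] at n2
    unfold Bad at n1 n2
    rw [mem_filter, not_and, not_lt] at n1 n2
    have m1 := (abs_le.1 (n1 hbN)).1
    have m2 := (abs_le.1 (n2 hbN)).2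
    have c1 := mul_le_mul_of_nonneg_right (cf_mono s x b g2) hℓ0.le
    have c2 := mul_le_mul_of_nonneg_right (cf_mono s x b g3) hℓ0.le
    have hcy : 0 ≤ c * y := by positivity
    have u1 : cf s x b y * ℓ ≤ (1 + η) * (c * ((1 + η) * y)) := by
      calc cf s x b y * ℓ ≤ cf s x b (gr η (j + 1)) * ℓ := c2
        _ ≤ (1 + η) * (c * gr η (j + 1)) := by linarith
        _ ≤ _ := by gcongr
    have u2 : (1 - η) * (c * ((1 - 2 * η) * y)) ≤ cf s x b y * ℓ := by
      calc (1 - η) * (c * ((1 - 2 * η) * y)) ≤ (1 - η) * (c * gr η j) := by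
            apply mul_le_mul_of_nonneg_left _ (by linarith)
            gcongr
        _ ≤ cf s x b (gr η j) * ℓ := by linarith
        _ ≤ _ := c1
    have u3 : |cf s x b y * ℓ - c * y| ≤ ε * (c * y) := by
      rw [abs_le]
      constructor
      · have : (1 - η) * (c * ((1 - 2 * η) * y)) = (1 - 3 * η + 2 * η ^ 2) * (c * y) := by ring
        rw [this] at u2
        have h8 : ε = 8 * η := by rw [hη]; ring
        rw [h8]
        nlinarith [mul_nonneg (sq_nonneg η) hcy]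
      · have : (1 + η) * (c * ((1 + η) * y)) = (1 + 2 * η + η ^ 2) * (c * y) := by ring
        rw [this] at u1
        have h8 : ε = 8 * η := by rw [hη]; ring
        rw [h8]
        have h9 : η ^ 2 ≤ η := by nlinarith
        nlinarith [mul_le_mul_of_nonneg_right h9 hcy]
    linarith
  refine ⟨E, filter_subset _ _, ?_, ?_⟩
  · have h1 : (E.card : ℝ) ≤ ∑ j ∈ range J, ((BB j).card : ℝ) := by
      exact_mod_cast (card_le_card hsub).trans card_biUnion_le
    have h2 : (E.card : ℝ) * ℓ ^ (C + 2) ≤ J * (2 * N) := by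
      calc (E.card : ℝ) * ℓ ^ (C + 2) ≤
            (∑ j ∈ range J, ((BB j).card : ℝ)) * ℓ ^ (C + 2) := by gcongr
        _ = ∑ j ∈ range J, ((BB j).card : ℝ) * ℓ ^ (C + 2) := by rw [sum_mul]
        _ ≤ ∑ _j ∈ range J, (2 * (N : ℝ)) := sum_le_sum fun j _ => hBBc j
        _ = _ := by rw [sum_const, nsmul_eq_mul, card_range]
    have h3 : (J : ℝ) * 2 ≤ ℓ ^ 2 := by
      have h4 : (J : ℝ) ≤ ℓ / Real.log (1 + η) + 2 := by
        rw [hJ]; push_cast
        have := Nat.floor_le (show 0 ≤ ℓ / Real.log (1 + η) by positivity)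
        linarith
      have h5 : 2 / Real.log (1 + η) ≤ ℓ - 8 := by linarith
      have h6 : ℓ / Real.log (1 + η) * 2 ≤ ℓ * (ℓ - 8) := by
        calc ℓ / Real.log (1 + η) * 2 = ℓ * (2 / Real.log (1 + η)) := by ring
          _ ≤ _ := mul_le_mul_of_nonneg_left h5 hℓ0.le
      nlinarith
    have h5 : ((E.card : ℝ) * ℓ ^ C) * ℓ ^ 2 ≤ N * ℓ ^ 2 := by
      calc ((E.card : ℝ) * ℓ ^ C) * ℓ ^ 2 = (E.card : ℝ) * ℓ ^ (C + 2) := by
            rw [pow_add]; ring
        _ ≤ J * (2 * N) := h2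
        _ = (J * 2) * N := by ring
        _ ≤ ℓ ^ 2 * N := by gcongr
        _ = _ := by ring
    exact le_of_mul_le_mul_right h5 (by positivity)
  · intro b hb hbE y hy1 hy2
    rw [hE, mem_filter] at hbE
    push Not at hbE
    exact hbE hb y hy1 hy2

end Pool.Agent.X25.TE
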