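import Mathlib
import Pool.Agent.X25.TE.Trans

/-! Statements with the prime counting function. -/

set_option autoImplicit false

namespace Pool.Agent.X25.TE
open Finset Filter
open Pool.Agent.W301.SS
open Pool.Agent.H373R2.T7 (energy)

/-- `(π(x + y) - π(x)) / (y / log x)` -/
noncomputable def R (x y : ℝ) : ℝ :=
  ((Nat.primeCounting ⌊x + y⌋₊ : ℝ) - Nat.primeCounting ⌊x⌋₊) / (y / Real.log x)

/-- The averages of `R(s m + b, y m)` over the translates of a family. -/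
theorem avgFam (C p : ℕ) (hp : 1 ≤ p) (ε : ℝ) (hε : 0 < ε) (hε1 : ε ≤ 1) : ∃ K : ℕ, ∀ᶠ N : ℕ in atTop,
    ∀ (s : ℕ → ℕ) (x : ℕ), 1 ≤ x → (∀ m ∈ Icc 1 x, s m ≤ N) →
    (energy p x (fun m => (s m : ℤ)) : ℝ) * N ≤ Real.log N ^ C * (x : ℝ) ^ (2 * p) →
    ∃ E : Finset ℕ, E ⊆ Icc 1 N ∧ (E.card : ℝ) * Real.log N ^ C ≤ N ∧
      ∀ b ∈ Icc 1 N, b ∉ E →
      ∀ Y : ℝ, Real.log N ^ K ≤ Y → Y ≤ N →
        ∀ y : ℕ → ℝ, (∀ m ∈ Icc 1 x, (1 - ε / 8) * Y ≤ y m ∧ y m ≤ Y) →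
        |(∑ m ∈ Icc 1 x, R ((s m + b : ℕ) : ℝ) (y m)) / x - 1| ≤ ε := by
  classical
  set δ : ℝ := ε / 8 with hδ
  have hδ0 : 0 < δ := by positivity
  have hδ1 : δ ≤ 1 / 8 := by rw [hδ]; linarith
  obtain ⟨K, hK⟩ := transFam (C + 1) p hp δ hδ0 (by linarith)
  refine ⟨K + 1, ?_⟩
  filter_upwards [hK, ev_L (2 / δ + 4), ev_log C 2 δ hδ0, eventually_ge_atTop 16] with
    N h1 h2 h3 hN16 s x hx hs hen
  have hNr : (16 : ℝ) ≤ N := by exact_mod_cast hN16
  have hN0 : (0 : ℝ) < N := by linarith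
  have hN1 : (1 : ℝ) ≤ N := by linarith
  set ℓ := Real.log N with hℓ
  have hd1 : 0 < 2 / δ := by positivity
  have hℓ4 : 4 ≤ ℓ := by linarith
  have hℓ0 : 0 < ℓ := by linarith
  have hx0 : (0 : ℝ) < x := by exact_mod_cast hx
  obtain ⟨E, hE1, hE2, hE3⟩ := h1 s x hs (by
    refine hen.trans ?_
    apply mul_le_mul_of_nonneg_right _ (by positivity)
    exact pow_le_pow_right₀ (by linarith) (by omega))
  set E' : Finset ℕ := E ∪ (Icc 1 N).filter (fun b : ℕ => ((b : ℕ) : ℝ) < (N : ℝ) ^ (1 - δ)) with hE'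
  refine ⟨E', union_subset hE1 (filter_subset _ _), ?_, ?_⟩
  · have a1 : (E'.card : ℝ) ≤ E.card + ((Icc 1 N).filter (fun b : ℕ => ((b : ℕ) : ℝ) < (N : ℝ) ^ (1 - δ))).card := by
      exact_mod_cast card_union_le _ _
    have a2 : (((Icc 1 N).filter (fun b : ℕ => ((b : ℕ) : ℝ) < (N : ℝ) ^ (1 - δ))).card : ℝ) ≤
        (N : ℝ) ^ (1 - δ) := by
      have a3 : (Icc 1 N).filter (fun b : ℕ => ((b : ℕ) : ℝ) < (N : ℝ) ^ (1 - δ)) ⊆
          Icc 1 ⌊(N : ℝ) ^ (1 - δ)⌋₊ := by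
        intro b hb
        rw [mem_filter, mem_Icc] at hb
        rw [mem_Icc]
        exact ⟨hb.1.1, Nat.le_floor hb.2.le⟩
      have a4 := card_le_card a3
      rw [Nat.card_Icc] at a4
      have a5 : ((((Icc 1 N).filter (fun b : ℕ => ((b : ℕ) : ℝ) < (N : ℝ) ^ (1 - δ))).card : ℕ) : ℝ) ≤
          ((⌊(N : ℝ) ^ (1 - δ)⌋₊ : ℕ) : ℝ) := by
        exact_mod_cast (by omega : _ ≤ ⌊(N : ℝ) ^ (1 - δ)⌋₊)
      exact a5.trans (Nat.floor_le (by positivity))
    have a3 : (E.card : ℝ) * ℓ ^ C ≤ N / 2 := by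
      have : (E.card : ℝ) * ℓ ^ C * ℓ ≤ N := by rw [mul_assoc, ← pow_succ]; exact hE2
      have h0 : 0 ≤ (E.card : ℝ) * ℓ ^ C := by positivity
      nlinarith
    have a4 : (N : ℝ) ^ (1 - δ) * ℓ ^ C ≤ N / 2 := by
      have : (N : ℝ) ^ (1 - δ) * (2 * ℓ ^ C) ≤ N := by
        calc (N : ℝ) ^ (1 - δ) * (2 * ℓ ^ C) ≤ (N : ℝ) ^ (1 - δ) * (N : ℝ) ^ δ := by gcongr
          _ = N := by rw [← Real.rpow_add hN0]; norm_num
      linarith
    have h0 : 0 ≤ ℓ ^ C := by positivity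
    calc (E'.card : ℝ) * ℓ ^ C ≤ (E.card + (N : ℝ) ^ (1 - δ)) * ℓ ^ C := by gcongr; linarith
      _ = E.card * ℓ ^ C + (N : ℝ) ^ (1 - δ) * ℓ ^ C := by ring
      _ ≤ _ := by linarith
  · intro b hb hbE Y hY1 hY2 y hy
    rw [hE', mem_union, mem_filter] at hbE
    push Not at hbE
    obtain ⟨hbE1, hbE2⟩ := hbE
    have hbN := hbE2 hb
    rw [mem_Icc] at hb
    have hbr : (b : ℝ) ≤ N := by exact_mod_cast hb.2
    have hYℓ : ℓ ^ K * ℓ ≤ Y := by rw [← pow_succ]; exact hY1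
    have hℓK : 1 ≤ ℓ ^ K := one_le_pow₀ (by linarith)
    have hYbig : ℓ ≤ Y := by nlinarith
    have hY0 : 0 < Y := by linarith
    set f1 : ℕ := ⌊(1 - δ) * Y⌋₊ with hf1
    set f2 : ℕ := ⌊Y⌋₊ with hf2
    have hf2N : f2 ≤ N := by
      have : (f2 : ℝ) ≤ N := (Nat.floor_le hY0.le).trans hY2
      exact_mod_cast this
    have hf12 : f1 ≤ f2 := Nat.floor_mono (by nlinarith)
    have hf1lo : (1 - 2 * δ) * Y ≤ f1 := by
      have a1 := Nat.lt_floor_add_one ((1 - δ) * Y)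
      rw [← hf1] at a1
      have a2 : 1 ≤ δ * Y := by
        have : 2 / δ ≤ Y := by linarith
        rw [div_le_iff₀ hδ0] at this
        linarith
      linarith
    have hf2hi : (f2 : ℝ) ≤ Y := Nat.floor_le hY0.le
    have hf1K : ℓ ^ K ≤ f1 := by
      refine le_trans ?_ hf1lo
      nlinarith
    have hf1r : (f1 : ℝ) ≤ f2 := by exact_mod_cast hf12
    have g1 := hE3 b (mem_Icc.2 hb) hbE1 f1 hf1K (hf12.trans hf2N)
    have g2 := hE3 b (mem_Icc.2 hb) hbE1 f2 (hf1K.trans hf1r) hf2N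
    -- logarithms
    have hlog : ∀ a ∈ Icc 1 x, (1 - δ) * ℓ ≤ Real.log ((s a + b : ℕ) : ℝ) ∧
        Real.log ((s a + b : ℕ) : ℝ) ≤ (1 + δ) * ℓ := by
      intro a ha
      have ha1 : (s a : ℝ) ≤ N := by exact_mod_cast hs a ha
      have ha0 : (0 : ℝ) ≤ s a := Nat.cast_nonneg _
      constructor
      · rw [← Real.log_rpow hN0]
        apply Real.log_le_log (by positivity)
        push_cast; linarith
      · have hab : ((s a + b : ℕ) : ℝ) ≤ 2 * N := by push_cast; linarith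
        have hab0 : (0 : ℝ) < ((s a + b : ℕ) : ℝ) := by
          exact_mod_cast (by omega : 0 < s a + b)
        have a1 := Real.log_le_log hab0 hab
        rw [Real.log_mul (by norm_num) hN0.ne'] at a1
        have a2 := Real.log_two_lt_d9
        have a3 : 1 ≤ δ * ℓ := by
          have : 2 / δ ≤ ℓ := by linarith
          rw [div_le_iff₀ hδ0] at this
          linarith
        linarith
    have hd : 0 < 1 - δ := by linarith
    -- termwise bounds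
    have hterm : ∀ a ∈ Icc 1 x, ((1 - δ) * ℓ / Y) * (pn (s a + b) f1 : ℝ) ≤
        R ((s a + b : ℕ) : ℝ) (y a) ∧
        R ((s a + b : ℕ) : ℝ) (y a) ≤ ((1 + δ) * ℓ / ((1 - δ) * Y)) * (pn (s a + b) f2 : ℝ) := by
      intro a ha
      obtain ⟨y1, y2⟩ := hy a ha
      obtain ⟨l1, l2⟩ := hlog a ha
      have hya : 0 < y a := lt_of_lt_of_le (by positivity) y1
      have hl0 : 0 < Real.log ((s a + b : ℕ) : ℝ) := lt_of_lt_of_le (by positivity) l1
      unfold R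
      rw [Nat.floor_natCast, pn_floor (s a + b) (y a) hya.le]
      have m1 : (pn (s a + b) f1 : ℝ) ≤ pn (s a + b) ⌊y a⌋₊ := by
        exact_mod_cast pn_mono (Nat.floor_mono y1)
      have m2 : (pn (s a + b) ⌊y a⌋₊ : ℝ) ≤ pn (s a + b) f2 := by
        exact_mod_cast pn_mono (Nat.floor_mono y2)
      have e : (pn (s a + b) ⌊y a⌋₊ : ℝ) / (y a / Real.log ((s a + b : ℕ) : ℝ)) =
          (Real.log ((s a + b : ℕ) : ℝ) / y a) * (pn (s a + b) ⌊y a⌋₊ : ℝ) := by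
        field_simp
      rw [e]
      have p1 : (0 : ℝ) ≤ pn (s a + b) f1 := Nat.cast_nonneg _
      have p2 : (0 : ℝ) ≤ pn (s a + b) ⌊y a⌋₊ := Nat.cast_nonneg _
      constructor
      · apply mul_le_mul _ m1 p1 (by positivity)
        apply div_le_div₀ hl0.le l1 hya y2
      · apply mul_le_mul _ m2 p2 (by positivity)
        apply div_le_div₀ (by positivity) l2 (by positivity) y1
    have hlow : ((1 - δ) * ℓ / Y) * cf s x b f1 ≤ ∑ a ∈ Icc 1 x, R ((s a + b : ℕ) : ℝ) (y a) := by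
      unfold cf
      rw [mul_sum]
      exact sum_le_sum fun a ha => (hterm a ha).1
    have hupp : ∑ a ∈ Icc 1 x, R ((s a + b : ℕ) : ℝ) (y a) ≤
        ((1 + δ) * ℓ / ((1 - δ) * Y)) * cf s x b f2 := by
      unfold cf
      rw [mul_sum]
      exact sum_le_sum fun a ha => (hterm a ha).2
    have b1 : (1 - δ) * ((x : ℝ) * f1) ≤ cf s x b f1 * ℓ := by
      have := (abs_le.1 g1).1; linarith
    have b2 : cf s x b f2 * ℓ ≤ (1 + δ) * ((x : ℝ) * f2) := by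
      have := (abs_le.1 g2).2; linarith
    have c1 : (1 - ε) * x ≤ ((1 - δ) * ℓ / Y) * cf s x b f1 := by
      have e : ((1 - δ) * ℓ / Y) * cf s x b f1 = ((1 - δ) / Y) * (cf s x b f1 * ℓ) := by ring
      rw [e]
      calc (1 - ε) * (x : ℝ) ≤ ((1 - δ) * (1 - δ) * (1 - 2 * δ)) * x := by
            apply mul_le_mul_of_nonneg_right _ hx0.le
            have : ε = 8 * δ := by rw [hδ]; ring
            rw [this]
            nlinarith [mul_nonneg hδ0.le hδ0.le, mul_nonneg (mul_nonneg hδ0.le hδ0.le) hδ0.le]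
        _ = ((1 - δ) / Y) * ((1 - δ) * ((x : ℝ) * ((1 - 2 * δ) * Y))) := by
            field_simp
        _ ≤ ((1 - δ) / Y) * ((1 - δ) * ((x : ℝ) * f1)) := by gcongr
        _ ≤ _ := by gcongr
    have c2 : ((1 + δ) * ℓ / ((1 - δ) * Y)) * cf s x b f2 ≤ (1 + ε) * x := by
      have e : ((1 + δ) * ℓ / ((1 - δ) * Y)) * cf s x b f2 =
          ((1 + δ) / ((1 - δ) * Y)) * (cf s x b f2 * ℓ) := by ring
      rw [e]
      calc ((1 + δ) / ((1 - δ) * Y)) * (cf s x b f2 * ℓ) ≤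
            ((1 + δ) / ((1 - δ) * Y)) * ((1 + δ) * ((x : ℝ) * f2)) := by gcongr
        _ ≤ ((1 + δ) / ((1 - δ) * Y)) * ((1 + δ) * ((x : ℝ) * Y)) := by gcongr
        _ = ((1 + δ) * (1 + δ) / (1 - δ)) * x := by field_simp
        _ ≤ _ := by
            apply mul_le_mul_of_nonneg_right _ hx0.le
            rw [div_le_iff₀ hd]
            have : ε = 8 * δ := by rw [hδ]; ring
            rw [this]
            nlinarith
    rw [abs_le]
    constructor
    · have : (1 - ε) ≤ (∑ a ∈ Icc 1 x, R ((s a + b : ℕ) : ℝ) (y a)) / x := by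
        rw [le_div_iff₀ hx0]; exact c1.trans hlow
      linarith
    · have : (∑ a ∈ Icc 1 x, R ((s a + b : ℕ) : ℝ) (y a)) / x ≤ 1 + ε := by
        rw [div_le_iff₀ hx0]; exact hupp.trans c2
      linarith

end Pool.Agent.X25.TE
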