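import Mathlib
import Pool.Agent.X25.TE.Avg
import Pool.Agent.H373R2.T7.BilLam

/-! The values of a polynomial. -/

set_option autoImplicit false

namespace Pool.Agent.X25.TE
open Finset Filter Polynomial
open Pool.Agent.W301.SS (ev_L ev_log)
open Pool.Agent.H373R2.T7 (energy energy_poly abs_eval_le)

lemma energy_shift (p x : ℕ) (u : ℕ → ℤ) (c : ℤ) :
    energy p x (fun m => u m + c) = energy p x u := by
  unfold energy
  congr 1
  apply filter_congr
  intro q _
  simp only [sum_add_distrib, sum_const]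
  constructor
  · intro h; exact add_right_cancel h
  · intro h; rw [h]

lemma energy_congr (p x : ℕ) (u v : ℕ → ℤ) (h : ∀ m ∈ Icc 1 x, u m = v m) :
    energy p x u = energy p x v := by
  unfold energy
  congr 1
  apply filter_congr
  intro q hq
  rw [mem_product, Fintype.mem_piFinset, Fintype.mem_piFinset] at hq
  rw [sum_congr rfl fun i _ => h _ (hq.1 i), sum_congr rfl fun i _ => h _ (hq.2 i)]

lemma eval_nonneg_of_large (f : ℤ[X]) (hd : 1 ≤ f.natDegree) (hl : 0 < f.leadingCoeff) (n : ℕ)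
    (hn : Pool.Agent.H373R2.T7.cf f ≤ n) : 0 ≤ f.eval (n : ℤ) := by
  obtain ⟨d, hdd⟩ : ∃ d, f.natDegree = d + 1 := ⟨f.natDegree - 1, by omega⟩
  have hlc : 1 ≤ f.coeff (d + 1) := by rw [← hdd]; exact hl
  rcases Nat.eq_zero_or_pos n with h0 | h0
  · exfalso
    have h1 : (f.coeff (d + 1)).natAbs ≤ Pool.Agent.H373R2.T7.cf f := by
      unfold Pool.Agent.H373R2.T7.cf
      exact single_le_sum (f := fun i => (f.coeff i).natAbs) (fun i _ => Nat.zero_le _)
        (mem_range.2 (by omega))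
    have h2 : 1 ≤ (f.coeff (d + 1)).natAbs := by omega
    omega
  have hn1 : (1 : ℤ) ≤ n := by exact_mod_cast h0
  rw [eval_eq_sum_range, hdd, sum_range_succ]
  have h1 : |∑ i ∈ range (d + 1), f.coeff i * (n : ℤ) ^ i| ≤
      (∑ i ∈ range (d + 1), ((f.coeff i).natAbs : ℤ)) * (n : ℤ) ^ d := by
    refine (abs_sum_le_sum_abs _ _).trans ?_
    rw [sum_mul]
    apply sum_le_sum
    intro i hi
    rw [mem_range] at hi
    rw [abs_mul, abs_pow, Nat.abs_cast]
    rw [Int.abs_eq_natAbs]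
    apply mul_le_mul_of_nonneg_left _ (by positivity)
    exact pow_le_pow_right₀ hn1 (by omega)
  have h2 : (∑ i ∈ range (d + 1), ((f.coeff i).natAbs : ℤ)) ≤ n := by
    have h3 : Pool.Agent.H373R2.T7.cf f =
        ∑ i ∈ range (d + 1), (f.coeff i).natAbs + (f.coeff (d + 1)).natAbs := by
      unfold Pool.Agent.H373R2.T7.cf
      rw [hdd, sum_range_succ]
    have h4 : ∑ i ∈ range (d + 1), (f.coeff i).natAbs ≤ n := by omega
    exact_mod_cast h4
  have h3 := (abs_le.1 h1).1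
  have h4 : (∑ i ∈ range (d + 1), ((f.coeff i).natAbs : ℤ)) * (n : ℤ) ^ d ≤ n * (n : ℤ) ^ d :=
    mul_le_mul_of_nonneg_right h2 (by positivity)
  have h5 : (n : ℤ) * (n : ℤ) ^ d ≤ f.coeff (d + 1) * (n : ℤ) ^ (d + 1) := by
    rw [pow_succ, mul_comm ((n : ℤ) ^ d)]
    have : 0 ≤ (n : ℤ) * (n : ℤ) ^ d := by positivity
    nlinarith
  linarith

lemma exists_shift (f : ℤ[X]) (hd : 1 ≤ f.natDegree) (hl : 0 < f.leadingCoeff) :
    ∃ c : ℕ, ∀ m : ℕ, 1 ≤ m → 0 ≤ f.eval (m : ℤ) + c := by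
  refine ⟨Pool.Agent.H373R2.T7.cf f * Pool.Agent.H373R2.T7.cf f ^ f.natDegree, fun m hm => ?_⟩
  rcases le_or_gt (Pool.Agent.H373R2.T7.cf f) m with h | h
  · have := eval_nonneg_of_large f hd hl m h
    positivity
  · have h1 := abs_eval_le f m hm
    have h2 : ((m : ℤ)) ^ f.natDegree ≤ (Pool.Agent.H373R2.T7.cf f : ℤ) ^ f.natDegree := by
      apply pow_le_pow_left₀ (by positivity)
      exact_mod_cast h.le
    have h3 : (Pool.Agent.H373R2.T7.cf f : ℤ) * (m : ℤ) ^ f.natDegree ≤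
        (Pool.Agent.H373R2.T7.cf f : ℤ) * (Pool.Agent.H373R2.T7.cf f : ℤ) ^ f.natDegree :=
      mul_le_mul_of_nonneg_left h2 (by positivity)
    have h4 := (abs_le.1 h1).1
    push_cast
    linarith

/-- **The averages over the values of a polynomial, shifted by `b`.** -/
theorem polyAvg (f : ℤ[X]) (hd : 1 ≤ f.natDegree) (hl : 0 < f.leadingCoeff) (C : ℕ) (ε : ℝ)
    (hε : 0 < ε) (hε1 : ε ≤ 1) : ∃ K : ℕ, ∀ x : ℕ, K ≤ x →
    ∃ E : Finset ℕ, E ⊆ Icc 1 (x ^ f.natDegree) ∧
      (E.card : ℝ) * Real.log ((x ^ f.natDegree : ℕ) : ℝ) ^ C ≤ ((x ^ f.natDegree : ℕ) : ℝ) ∧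
      ∀ b ∈ Icc 1 (x ^ f.natDegree), b ∉ E → (∀ m ∈ Icc 1 x, 1 < f.eval (m : ℤ) + b) ∧
      ∀ Y : ℝ, Real.log ((x ^ f.natDegree : ℕ) : ℝ) ^ K ≤ Y → Y ≤ ((x ^ f.natDegree : ℕ) : ℝ) →
        ∀ y : ℕ → ℝ, (∀ m ∈ Icc 1 x, (1 - ε / 8) * Y ≤ y m ∧ y m ≤ Y) →
        |(∑ m ∈ Icc 1 x, R ((f.eval (m : ℤ) + b : ℤ) : ℝ) (y m)) / x - 1| ≤ ε := by
  classical
  obtain ⟨c, hc⟩ := exists_shift f hd hl
  obtain ⟨p, C1, hC1, hen⟩ := energy_poly f hd hl
  set d := f.natDegree with hdef
  set s : ℕ → ℕ := fun m => (f.eval (m : ℤ) + c).toNat with hs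
  have hsc : ∀ m : ℕ, 1 ≤ m → (s m : ℤ) = f.eval (m : ℤ) + c := fun m hm =>
    Int.toNat_of_nonneg (hc m hm)
  set B : ℕ := Pool.Agent.H373R2.T7.cf f + c + 1 with hB
  -- the order of the energy is positive
  have hp : 1 ≤ p := by
    rcases Nat.eq_zero_or_pos p with h0 | h0
    · exfalso
      subst h0
      have h1 := hen (⌈C1⌉₊ + 1) (by omega)
      have h2 : energy 0 (⌈C1⌉₊ + 1) (fun m => f.eval (m : ℤ)) = 1 := by
        unfold energy
        rw [filter_true_of_mem (by intro q _; simp)]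
        simp
      rw [h2] at h1
      simp only [Nat.cast_one, one_mul, mul_zero, pow_zero, mul_one] at h1
      have h3 : ((⌈C1⌉₊ + 1 : ℕ) : ℝ) ≤ ((⌈C1⌉₊ + 1 : ℕ) : ℝ) ^ d := by
        apply le_self_pow₀
        · push_cast; have := Nat.cast_nonneg (α := ℝ) ⌈C1⌉₊; linarith
        · omega
      have h4 := Nat.le_ceil C1
      push_cast at h3 h1
      linarith
    · exact h0
  obtain ⟨K, hK⟩ := avgFam (C + 1) p hp ε hε hε1
  obtain ⟨N1, hN1⟩ := eventually_atTop.1 (hK.and ((ev_L (2 * B * (C1 * B) + 2 ^ K + 4 * B + 4 + 2 ^ C)).and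
    (ev_log (C + 1) (2 * (c + 2)) 1 (by norm_num))))
  refine ⟨max (K + 1) (max N1 (B + 2)), fun x hx => ?_⟩
  have hxK : K + 1 ≤ x := (le_max_left _ _).trans hx
  have hxN : N1 ≤ x := ((le_max_left _ _).trans (le_max_right _ _)).trans hx
  have hxB : B + 2 ≤ x := ((le_max_right _ _).trans (le_max_right _ _)).trans hx
  have hx1 : 1 ≤ x := by omega
  set X : ℕ := x ^ d with hX
  have hxX : x ≤ X := by rw [hX]; exact Nat.le_self_pow (by omega) x
  have hX1 : 1 ≤ X := by omega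
  set N : ℕ := B * X with hN
  have hXN : X ≤ N := by rw [hN]; exact Nat.le_mul_of_pos_left _ (by omega)
  obtain ⟨hmain, -, -⟩ := hN1 N (by omega)
  obtain ⟨-, hL, hlog⟩ := hN1 X (by omega)
  rw [Real.rpow_one] at hlog
  set L := Real.log (X : ℝ) with hLd
  have hXr : (1 : ℝ) ≤ X := by exact_mod_cast hX1
  have hX0 : (0 : ℝ) < X := by linarith
  have hBr : (1 : ℝ) ≤ B := by exact_mod_cast (by omega : 1 ≤ B)
  have hB0 : (0 : ℝ) < B := by linarith
  have hCB : 0 < 2 * B * (C1 * B) := by positivity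
  have h2K : (0 : ℝ) < 2 ^ K := by positivity
  have h2C : (0 : ℝ) < 2 ^ C := by positivity
  have hL4 : 4 ≤ L := by linarith
  have hL0 : 0 < L := by linarith
  have hNr : (N : ℝ) = B * X := by rw [hN]; push_cast; ring
  have hLN : Real.log (N : ℝ) = Real.log B + L := by
    rw [hNr, Real.log_mul (by linarith) (by linarith)]
  have hLB : 0 ≤ Real.log (B : ℝ) := Real.log_nonneg hBr
  have hLB2 : Real.log (B : ℝ) ≤ L := by
    apply Real.log_le_log hB0
    exact_mod_cast (by omega : B ≤ X)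
  have hLN1 : L ≤ Real.log (N : ℝ) := by linarith
  have hLN2 : Real.log (N : ℝ) ≤ 2 * L := by linarith
  -- the family
  have hsN : ∀ m ∈ Icc 1 x, s m ≤ N := by
    intro m hm
    rw [mem_Icc] at hm
    have h1 := hsc m hm.1
    have h2 := (abs_le.1 (abs_eval_le f m hm.1)).2
    have h3 : (m : ℤ) ^ d ≤ X := by
      rw [hX]; push_cast
      apply pow_le_pow_left₀ (by positivity)
      exact_mod_cast hm.2
    have h4 : (Pool.Agent.H373R2.T7.cf f : ℤ) * (m : ℤ) ^ d ≤ Pool.Agent.H373R2.T7.cf f * X :=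
      mul_le_mul_of_nonneg_left h3 (by positivity)
    have h5 : (c : ℤ) ≤ c * X := by
      have : (1 : ℤ) ≤ X := by exact_mod_cast hX1
      have h6 : (0 : ℤ) ≤ c := by positivity
      nlinarith
    have h6 : (s m : ℤ) ≤ N := by
      rw [h1, hN, hB]
      push_cast
      have h7 : (0 : ℤ) ≤ X := by positivity
      nlinarith
    exact_mod_cast h6
  have hensum : (energy p x (fun m => (s m : ℤ)) : ℝ) * N ≤
      Real.log (N : ℝ) ^ (C + 1) * (x : ℝ) ^ (2 * p) := by
    have e1 : energy p x (fun m => (s m : ℤ)) = energy p x (fun m => f.eval (m : ℤ)) := by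
      rw [← energy_shift p x (fun m => f.eval (m : ℤ)) c]
      apply energy_congr
      intro m hm
      rw [mem_Icc] at hm
      exact hsc m hm.1
    rw [e1]
    have h1 := hen x hx1
    have h2 : C1 * B ≤ Real.log (N : ℝ) ^ (C + 1) := by
      have h3 : C1 * B ≤ L := by
        have h5 : C1 * B ≤ 2 * B * (C1 * B) := by
          have h6 : 0 < C1 * B := by positivity
          nlinarith
        linarith
      calc C1 * B ≤ L := h3
        _ ≤ Real.log (N : ℝ) := hLN1
        _ = Real.log (N : ℝ) ^ 1 := (pow_one _).symm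
        _ ≤ Real.log (N : ℝ) ^ (C + 1) := pow_le_pow_right₀ (by linarith) (by omega)
    have hXd : ((x : ℝ)) ^ d = X := by rw [hX]; push_cast; ring
    rw [hXd] at h1
    calc (energy p x (fun m => f.eval (m : ℤ)) : ℝ) * N =
          B * ((energy p x (fun m => f.eval (m : ℤ)) : ℝ) * X) := by rw [hNr]; ring
      _ ≤ B * (C1 * (x : ℝ) ^ (2 * p)) := mul_le_mul_of_nonneg_left h1 hB0.le
      _ = (C1 * B) * (x : ℝ) ^ (2 * p) := by ring
      _ ≤ _ := mul_le_mul_of_nonneg_right h2 (by positivity)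
  obtain ⟨E', hE1, hE2, hE3⟩ := hmain s x hx1 hsN hensum
  set E : Finset ℕ := (Icc 1 X).filter (fun b => b ≤ c + 1 ∨ b - c ∈ E') with hE
  refine ⟨E, filter_subset _ _, ?_, ?_⟩
  · -- the size of the exceptional set
    have h1 : E ⊆ Icc 1 (c + 1) ∪ E'.image (fun b => b + c) := by
      intro b hb
      rw [hE, mem_filter, mem_Icc] at hb
      rw [mem_union, mem_Icc, mem_image]
      by_cases h : b ≤ c + 1
      · exact Or.inl ⟨hb.1.1, h⟩
      · refine Or.inr ⟨b - c, ?_, by omega⟩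
        exact hb.2.resolve_left h
    have h2 : (E.card : ℝ) ≤ (c + 1) + E'.card := by
      have h3 := (card_le_card h1).trans (card_union_le _ _)
      have h4 : (E'.image (fun b => b + c)).card ≤ E'.card := card_image_le
      rw [Nat.card_Icc] at h3
      have h5 : E.card ≤ (c + 1) + E'.card := by omega
      exact_mod_cast h5
    have h3 : (E'.card : ℝ) * L ^ (C + 1) ≤ B * X := by
      rw [← hNr]
      refine le_trans ?_ hE2
      apply mul_le_mul_of_nonneg_left _ (Nat.cast_nonneg _)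
      exact pow_le_pow_left₀ hL0.le hLN1 _
    have h4 : (E'.card : ℝ) * L ^ C ≤ X / 2 := by
      have h5 : (E'.card : ℝ) * L ^ C * (2 * B) ≤ (X / 2) * (2 * B) := by
        calc (E'.card : ℝ) * L ^ C * (2 * B) ≤ (E'.card : ℝ) * L ^ C * L := by
              apply mul_le_mul_of_nonneg_left _ (by positivity)
              linarith
          _ = (E'.card : ℝ) * L ^ (C + 1) := by ring
          _ ≤ B * X := h3
          _ = _ := by ring
      exact le_of_mul_le_mul_right h5 (by positivity)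
    have h5 : ((c : ℝ) + 1) * L ^ C ≤ X / 2 := by
      have h6 : L ^ C ≤ L ^ (C + 1) := pow_le_pow_right₀ (by linarith) (by omega)
      have h7 : 0 ≤ L ^ C := by positivity
      have h8 : (0 : ℝ) ≤ c := Nat.cast_nonneg _
      nlinarith
    calc (E.card : ℝ) * L ^ C ≤ ((c + 1) + E'.card) * L ^ C := by gcongr
      _ = (c + 1) * L ^ C + E'.card * L ^ C := by ring
      _ ≤ X := by linarith
  · intro b hb hbE
    rw [hE, mem_filter] at hbE
    push Not at hbE
    obtain ⟨hb1, hb2⟩ := hbE hb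
    rw [mem_Icc] at hb
    have hbc : (((b - c : ℕ)) : ℤ) = (b : ℤ) - c := by rw [Nat.cast_sub (by omega)]
    have hval : ∀ m ∈ Icc 1 x, (((s m + (b - c) : ℕ)) : ℤ) = f.eval (m : ℤ) + b := by
      intro m hm
      rw [mem_Icc] at hm
      rw [Nat.cast_add, hsc m hm.1, hbc]; ring
    refine ⟨fun m hm => ?_, ?_⟩
    · rw [← hval m hm]
      exact_mod_cast (by omega : 1 < s m + (b - c))
    · intro Y hY1 hY2 y hy
      have hK2 : Real.log (N : ℝ) ^ K ≤ Y := by
        refine le_trans ?_ hY1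
        calc Real.log (N : ℝ) ^ K ≤ (2 * L) ^ K := pow_le_pow_left₀ (by linarith) hLN2 _
          _ = 2 ^ K * L ^ K := mul_pow _ _ _
          _ ≤ L * L ^ K := mul_le_mul_of_nonneg_right (by linarith) (by positivity)
          _ = L ^ (K + 1) := by ring
          _ ≤ L ^ (max (K + 1) (max N1 (B + 2))) := pow_le_pow_right₀ (by linarith) (le_max_left _ _)
      have hYN : Y ≤ (N : ℝ) := hY2.trans (by exact_mod_cast hXN)
      have key := hE3 (b - c) (mem_Icc.2 ⟨by omega, by omega⟩) hb2 Y hK2 hYN y hy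
      have e : ∑ m ∈ Icc 1 x, R ((f.eval (m : ℤ) + b : ℤ) : ℝ) (y m) =
          ∑ m ∈ Icc 1 x, R (((s m + (b - c) : ℕ)) : ℝ) (y m) := by
        apply sum_congr rfl
        intro m hm
        rw [← hval m hm, Int.cast_natCast]
      rw [e]
      exact key

end Pool.Agent.X25.TE
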